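import Pool.Agent.EXLow.Index

set_option autoImplicit false

namespace Pool.Agent.EXLow

open MeasureTheory Filter
open Nat.Partrec (Code)
open scoped ENNReal

theorem partrec_phi : Partrec fun q : ℕ × ℕ => phi q.1 q.2 :=
  Code.eval_part.comp ((Computable.ofNat Code).comp Computable.fst) Computable.snd

/-- The learner number `i` outputs on `ξ` an index of a measure which gives `[ρ]` a measure
larger than one half (approximately). -/
def Hit (i : ℕ) (ρ ξ : List Bool) : Prop :=
  ∃ e ∈ phi i (Encodable.encode ξ), ∃ a ∈ phi e (Encodable.encode (ρ, 2)), 2 < a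

theorem rePred_hit : REPred fun q : ℕ × List Bool × List Bool => Hit q.1 q.2.1 q.2.2 := by
  have h1 : REPred fun r : ((ℕ × List Bool × List Bool) × ℕ) × ℕ =>
      r.1.2 ∈ phi r.1.1.1 (Encodable.encode r.1.1.2.2) := by
    have := rePred_mem partrec_phi
    exact rePred_comp this (f := fun r : ((ℕ × List Bool × List Bool) × ℕ) × ℕ =>
      ((r.1.1.1, Encodable.encode r.1.1.2.2), r.1.2)) (Primrec.to_comp (Primrec.pair (Primrec.pair
        (Primrec.fst.comp (Primrec.fst.comp Primrec.fst))
        (Primrec.encode.comp (Primrec.snd.comp (Primrec.snd.comp (Primrec.fst.comp Primrec.fst)))))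
        (Primrec.snd.comp Primrec.fst)))
  have h2 : REPred fun r : ((ℕ × List Bool × List Bool) × ℕ) × ℕ =>
      r.2 ∈ phi r.1.2 (Encodable.encode (r.1.1.2.1, 2)) := by
    have := rePred_mem partrec_phi
    exact rePred_comp this (f := fun r : ((ℕ × List Bool × List Bool) × ℕ) × ℕ =>
      ((r.1.2, Encodable.encode (r.1.1.2.1, 2)), r.2)) (Primrec.to_comp (Primrec.pair (Primrec.pair
        (Primrec.snd.comp Primrec.fst)
        (Primrec.encode.comp (Primrec.pair
          (Primrec.fst.comp (Primrec.snd.comp (Primrec.fst.comp Primrec.fst)))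
          (Primrec.const 2)))) Primrec.snd))
  have h3 : REPred fun r : ((ℕ × List Bool × List Bool) × ℕ) × ℕ => decide (2 < r.2) = true :=
    rePred_of_computable (Primrec.nat_lt.decide.comp (Primrec.const 2) Primrec.snd).to_comp
  refine (rePred_exists (rePred_exists (rePred_and h1 (rePred_and h2 h3)))).of_eq fun q => ?_
  unfold Hit
  refine exists_congr fun e => ?_
  constructor
  · rintro ⟨a, h1, h2, h3⟩
    exact ⟨h1, a, h2, by simpa using h3⟩
  · rintro ⟨h1, a, h2, h3⟩
    exact ⟨a, h1, h2, by simpa using h3⟩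

/-- The set of reals in `[ρ]` on which learner number `i` makes, late enough, a guess that gives
`[ρ]` a large measure. -/
def BelSet (i : ℕ) (ρ : List Bool) : Set (ℕ → Bool) :=
  {X | X ∈ cyl ρ ∧ ∃ n, ρ.length ≤ n ∧ Hit i ρ (pre X n)}

/-- The learner number `i` believes in `ρ`. -/
def Believe (i : ℕ) (ρ : List Bool) : Prop :=
  lam (cyl ρ \ BelSet i ρ) < (1 / 4) ^ ρ.length

theorem primrec_pow (c : ℕ) : Primrec fun n : ℕ => c ^ n := by
  refine (Primrec.nat_rec₁ 1 (f := fun _ r => r * c)
    (Primrec.nat_mul.comp Primrec.snd (Primrec.const c)).to₂).of_eq fun n => ?_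
  induction n with
  | zero => rfl
  | succ n ih => rw [pow_succ, ← ih]

/-! ### lists of strings -/

/-- All strings of length `s`. -/
def allStr (s : ℕ) : List (List Bool) :=
  Nat.rec [[]] (fun _ l => l.flatMap fun η => [η ++ [false], η ++ [true]]) s

theorem allStr_succ (s : ℕ) :
    allStr (s + 1) = (allStr s).flatMap fun η => [η ++ [false], η ++ [true]] := rfl

theorem primrec_allStr : Primrec allStr := by
  refine Primrec.nat_rec₁ [[]] (f := fun _ (l : List (List Bool)) =>
    l.flatMap fun η => [η ++ [false], η ++ [true]]) ?_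
  have h : Primrec₂ fun (_ : ℕ × List (List Bool)) (η : List Bool) =>
      [η ++ [false], η ++ [true]] := by
    refine Primrec.list_cons.comp (Primrec.list_concat.comp Primrec.snd (Primrec.const false)) ?_
    refine Primrec.list_cons.comp (Primrec.list_concat.comp Primrec.snd (Primrec.const true))
      (Primrec.const [])
  exact (Primrec.list_flatMap (f := fun q : ℕ × List (List Bool) => q.2) Primrec.snd h).to₂

theorem mem_allStr {s : ℕ} {η : List Bool} : η ∈ allStr s ↔ η.length = s := by
  induction s generalizing η with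
  | zero =>
    show η ∈ [[]] ↔ _
    simp
  | succ s ih =>
    rw [allStr_succ, List.mem_flatMap]
    constructor
    · rintro ⟨η', h1, h2⟩
      rw [ih] at h1
      simp only [List.mem_cons, List.not_mem_nil, or_false] at h2
      rcases h2 with rfl | rfl <;> simp [h1]
    · intro h
      rcases List.eq_nil_or_concat' η with rfl | ⟨η', b, rfl⟩
      · simp at h
      · refine ⟨η', ih.2 (by simpa using h), ?_⟩
        cases b <;> simp

theorem nodup_allStr (s : ℕ) : (allStr s).Nodup := by
  induction s with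
  | zero => exact List.nodup_singleton _
  | succ s ih =>
    rw [allStr_succ, List.nodup_flatMap]
    refine ⟨fun η _ => by simp, ?_⟩
    refine ih.imp_of_mem ?_
    intro η η' _ _ hne
    show List.Disjoint _ _
    intro x hx hx'
    simp only [List.mem_cons, List.not_mem_nil, or_false] at hx hx'
    rcases hx with rfl | rfl <;> rcases hx' with h | h
    · exact hne (List.append_inj_left' h rfl)
    · exact absurd (List.append_inj_right' h rfl) (by simp)
    · exact absurd (List.append_inj_right' h rfl) (by simp)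
    · exact hne (List.append_inj_left' h rfl)

theorem lam_list {s : ℕ} {T : List (List Bool)} (hT : T.Nodup) (hs : ∀ η ∈ T, η.length = s) :
    lam {X | pre X s ∈ T} = T.length * (1 / 2) ^ s := by
  have h1 : {X | pre X s ∈ T} = ⋃ η ∈ T.toFinset, cyl η := by
    ext X
    simp only [Set.mem_ofPred_eq, List.mem_toFinset, Set.mem_iUnion, exists_prop]
    constructor
    · intro h; exact ⟨_, h, mem_cyl_pre X s⟩
    · rintro ⟨η, h, hX⟩
      rw [mem_cyl, hs η h] at hX
      rw [hX]; exact h
  rw [h1, measure_biUnion_finset]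
  · rw [Finset.sum_congr rfl (g := fun _ => (1 / 2 : ℝ≥0∞) ^ s)]
    · rw [Finset.sum_const, List.toFinset_card_of_nodup hT, nsmul_eq_mul]
    · intro η hη
      rw [lam_cyl, hs η (List.mem_toFinset.1 hη)]
  · intro η hη η' hη' hne
    have e1 := hs η (List.mem_toFinset.1 hη)
    have e2 := hs η' (List.mem_toFinset.1 hη')
    rw [Function.onFun, Set.disjoint_left]
    intro X hX hX'
    rw [mem_cyl] at hX hX'
    rw [e1] at hX
    rw [e2] at hX'
    exact hne (hX.symm.trans hX')
  · intro η _
    exact measurableSet_cyl η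

/-- Belief is recursively enumerable. -/
theorem rePred_believe : REPred fun q : ℕ × List Bool => Believe q.1 q.2 := by
  classical
  obtain ⟨b, hb, hbH⟩ := exists_bool_of_rePred rePred_hit
  -- the strings of length `s` which extend `ρ` and are not yet hit
  let C : ℕ × List Bool → ℕ → List Bool → Prop := fun q s η =>
    ∃ n < s + 1, q.2.length ≤ n ∧ ∃ t < s, b (q.1, q.2, η.take n) t = true
  let T : ℕ × List Bool → ℕ → List (List Bool) := fun q s =>
    (allStr s).filter fun η => decide (η.take q.2.length = q.2 ∧ ¬ C q s η)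
  have hC : PrimrecPred fun r : List Bool × ((ℕ × List Bool) × ℕ) => C r.2.1 r.2.2 r.1 := by
    -- inner relation
    have h0 : PrimrecRel fun (t : ℕ) (r : ℕ × (List Bool × ((ℕ × List Bool) × ℕ))) =>
        b (r.2.2.1.1, r.2.2.1.2, r.2.1.take r.1) t = true := by
      show PrimrecPred fun r : ℕ × (ℕ × (List Bool × ((ℕ × List Bool) × ℕ))) =>
        b (r.2.2.2.1.1, r.2.2.2.1.2, r.2.2.1.take r.2.1) r.1 = true
      refine Primrec.eq.comp ?_ (Primrec.const true)
      refine hb.comp ?_ Primrec.fst
      exact Primrec.pair (Primrec.fst.comp (Primrec.fst.comp (Primrec.snd.comp (Primrec.snd.comp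
        Primrec.snd)))) (Primrec.pair (Primrec.snd.comp (Primrec.fst.comp (Primrec.snd.comp
          (Primrec.snd.comp Primrec.snd)))) (Primrec.list_take.comp (Primrec.fst.comp Primrec.snd)
            (Primrec.fst.comp (Primrec.snd.comp Primrec.snd))))
    have h1 : PrimrecRel fun (n : ℕ) (r : List Bool × ((ℕ × List Bool) × ℕ)) =>
        r.2.1.2.length ≤ n ∧ ∃ t < r.2.2, b (r.2.1.1, r.2.1.2, r.1.take n) t = true := by
      have h2 : PrimrecRel fun (n : ℕ) (r : List Bool × ((ℕ × List Bool) × ℕ)) =>
          ∃ t < r.2.2, b (r.2.1.1, r.2.1.2, r.1.take n) t = true := by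
        show PrimrecPred fun r : ℕ × (List Bool × ((ℕ × List Bool) × ℕ)) =>
          ∃ t < r.2.2.2, b (r.2.2.1.1, r.2.2.1.2, r.2.1.take r.1) t = true
        refine (h0.exists_mem_list.comp (Primrec.list_range.comp
          (Primrec.snd.comp (Primrec.snd.comp Primrec.snd))) Primrec.id).of_eq ?_
        intro r
        simp
      show PrimrecPred fun r : ℕ × (List Bool × ((ℕ × List Bool) × ℕ)) =>
        r.2.2.1.2.length ≤ r.1 ∧
          ∃ t < r.2.2.2, b (r.2.2.1.1, r.2.2.1.2, r.2.1.take r.1) t = true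
      exact PrimrecPred.and (Primrec.nat_le.comp (Primrec.list_length.comp (Primrec.snd.comp (Primrec.fst.comp
        (Primrec.snd.comp Primrec.snd)))) Primrec.fst) h2
    refine (h1.exists_mem_list.comp (Primrec.list_range.comp
      (Primrec.succ.comp (Primrec.snd.comp Primrec.snd))) Primrec.id).of_eq ?_
    intro r
    simp [C]
  have hT : Primrec₂ T := by
    have hR : PrimrecRel fun (η : List Bool) (r : (ℕ × List Bool) × ℕ) =>
        (η.take r.1.2.length = r.1.2 ∧ ¬ C r.1 r.2 η) := by
      show PrimrecPred fun r : List Bool × ((ℕ × List Bool) × ℕ) =>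
        (r.1.take r.2.1.2.length = r.2.1.2 ∧ ¬ C r.2.1 r.2.2 r.1)
      exact PrimrecPred.and (Primrec.eq.comp (Primrec.list_take.comp (Primrec.list_length.comp
        (Primrec.snd.comp (Primrec.fst.comp Primrec.snd))) Primrec.fst)
        (Primrec.snd.comp (Primrec.fst.comp Primrec.snd))) hC.not
    have := hR.listFilter.comp (primrec_allStr.comp Primrec.snd)
      (Primrec.id (α := (ℕ × List Bool) × ℕ))
    refine this.of_eq ?_
    intro r
    simp [T]
  have hre : REPred fun q : ℕ × List Bool => ∃ s : ℕ,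
      (decide (q.2.length ≤ s) && decide ((T q s).length * 4 ^ q.2.length < 2 ^ s)) = true := by
    refine rePred_exists (p := fun r : (ℕ × List Bool) × ℕ => (decide (r.1.2.length ≤ r.2) &&
      decide ((T r.1 r.2).length * 4 ^ r.1.2.length < 2 ^ r.2)) = true) ?_
    refine rePred_of_computable (Primrec.to_comp ?_)
    have hl : Primrec fun r : (ℕ × List Bool) × ℕ => r.1.2.length :=
      Primrec.list_length.comp (Primrec.snd.comp Primrec.fst)
    refine Primrec.and.comp (Primrec.nat_le.decide.comp hl Primrec.snd) ?_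
    refine Primrec.nat_lt.decide.comp (Primrec.nat_mul.comp (Primrec.list_length.comp
      (hT.comp Primrec.fst Primrec.snd)) ((primrec_pow 4).comp hl))
      ((primrec_pow 2).comp Primrec.snd)
  refine hre.of_eq ?_
  rintro ⟨i, ρ⟩
  show _ ↔ Believe i ρ
  unfold Believe
  let B : ℕ → Set (ℕ → Bool) := fun s => {X | X ∈ cyl ρ ∧ ¬ C (i, ρ) s (pre X s)}
  have hB1 : ∀ s, ρ.length ≤ s → B s = {X | pre X s ∈ T (i, ρ) s} := by
    intro s hs
    ext X
    simp only [B, T, Set.mem_ofPred_eq, List.mem_filter, mem_allStr, pre_length, true_and,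
      decide_eq_true_eq]
    rw [take_pre X hs]
    exact Iff.rfl
  have hB2 : Antitone B := by
    intro s s' hss X hX
    refine ⟨hX.1, fun hc => hX.2 ?_⟩
    obtain ⟨n, hn, h1, t, ht, h2⟩ := hc
    refine ⟨n, by omega, h1, t, by omega, ?_⟩
    rw [take_pre X (by omega)] at h2 ⊢
    exact h2
  have hB3 : ⋂ s, B s = cyl ρ \ BelSet i ρ := by
    ext X
    simp only [Set.mem_iInter, Set.mem_sdiff]
    constructor
    · intro h
      refine ⟨(h 0).1, ?_⟩
      rintro ⟨_, n, hn, hH⟩
      obtain ⟨t, ht⟩ := (hbH (i, ρ, pre X n)).1 hH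
      refine (h (max n (t + 1))).2 ⟨n, by omega, hn, t, by omega, ?_⟩
      rw [take_pre X (le_max_left _ _)]
      exact ht
    · rintro ⟨h1, h2⟩ s
      refine ⟨h1, ?_⟩
      rintro ⟨n, hn, hn', t, ht, hbt⟩
      rw [take_pre X (by omega)] at hbt
      exact h2 ⟨h1, n, hn', (hbH (i, ρ, pre X n)).2 ⟨t, hbt⟩⟩
  have hB4 : ∀ s, MeasurableSet (B s) := by
    intro s
    have : B s = cyl ρ ∩ ⋃ η ∈ {η : List Bool | η.length = s ∧ ¬ C (i, ρ) s η}, cyl η := by
      ext X
      simp only [B, Set.mem_ofPred_eq, Set.mem_inter_iff, Set.mem_iUnion, exists_prop]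
      constructor
      · rintro ⟨h1, h2⟩
        exact ⟨h1, pre X s, ⟨pre_length X s, h2⟩, mem_cyl_pre X s⟩
      · rintro ⟨h1, η, ⟨h2, h3⟩, h4⟩
        rw [mem_cyl, h2] at h4
        rw [h4]
        exact ⟨h1, h3⟩
    rw [this]
    exact (measurableSet_cyl ρ).inter (MeasurableSet.biUnion (Set.to_countable _)
      fun η _ => measurableSet_cyl η)
  have hB5 : lam (cyl ρ \ BelSet i ρ) = ⨅ s, lam (B s) := by
    rw [← hB3]
    exact hB2.measure_iInter (fun s => (hB4 s).nullMeasurableSet) ⟨0, measure_ne_top _ _⟩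
  rw [hB5, iInf_lt_iff]
  have key : ∀ s, ρ.length ≤ s → (lam (B s) < (1 / 4) ^ ρ.length ↔
      (T (i, ρ) s).length * 4 ^ ρ.length < 2 ^ s) := by
    intro s hs
    rw [hB1 s hs, lam_list ((nodup_allStr s).filter _)
      (fun η hη => mem_allStr.1 (List.mem_filter.1 hη).1)]
    rw [one_div, one_div, ← ENNReal.inv_pow, ← ENNReal.inv_pow, ← div_eq_mul_inv]
    rw [ENNReal.div_lt_iff (by simp) (by simp), mul_comm, ← div_eq_mul_inv,
      ENNReal.lt_div_iff_mul_lt (by simp) (by simp)]
    norm_cast
  constructor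
  · rintro ⟨s, hs⟩
    rw [Bool.and_eq_true, decide_eq_true_eq, decide_eq_true_eq] at hs
    exact ⟨s, (key s hs.1).2 hs.2⟩
  · rintro ⟨s, hs⟩
    refine ⟨max s ρ.length, ?_⟩
    rw [Bool.and_eq_true, decide_eq_true_eq, decide_eq_true_eq]
    exact ⟨le_max_right _ _, (key _ (le_max_right _ _)).1
      ((measure_mono (hB2 (le_max_left _ _))).trans_lt hs)⟩

end Pool.Agent.EXLow
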