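import Mathlib

set_option autoImplicit false

namespace Pool.Agent.EXLow

open Filter
open Nat.Partrec (Code)

variable {α β γ δ : Type*} [Primcodable α] [Primcodable β] [Primcodable γ] [Primcodable δ]

/-! ### recursively enumerable predicates -/

theorem rePred_of_bool {p : α → Prop} {b : α → ℕ → Bool} (hb : Computable₂ b)
    (h : ∀ a, p a ↔ ∃ s, b a s = true) : REPred p := by
  have h1 : Partrec fun a => Nat.rfind fun n => Part.some (b a n) := Partrec.rfind hb.partrec₂
  refine (Partrec.dom_re h1).of_eq fun a => ?_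
  rw [h a]
  rw [Nat.rfind_dom]
  constructor
  · rintro ⟨n, hn, _⟩
    exact ⟨n, (Part.mem_some_iff.1 hn).symm⟩
  · rintro ⟨n, hn⟩
    exact ⟨n, Part.mem_some_iff.2 hn.symm, fun _ => trivial⟩

theorem exists_bool_of_rePred {p : α → Prop} (h : REPred p) :
    ∃ b : α → ℕ → Bool, Primrec₂ b ∧ ∀ a, p a ↔ ∃ s, b a s = true := by
  obtain ⟨c, hc⟩ := Code.exists_code.1 h
  refine ⟨fun a s => (Code.evaln s c (Encodable.encode a)).isSome, ?_, ?_⟩
  · refine Primrec.option_isSome.comp ?_
    exact Code.primrec_evaln.comp ((Primrec.snd.pair (Primrec.const c)).pair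
      (Primrec.encode.comp Primrec.fst))
  · intro a
    have h1 : p a ↔ (c.eval (Encodable.encode a)).Dom := by
      rw [hc]
      simp [Part.assert, Part.bind]
    rw [h1, Part.dom_iff_mem]
    constructor
    · rintro ⟨y, hy⟩
      rw [Code.evaln_complete] at hy
      obtain ⟨k, hk⟩ := hy
      refine ⟨k, ?_⟩
      show (Code.evaln k c (Encodable.encode a)).isSome = true
      rw [Option.mem_def.1 hk]; rfl
    · rintro ⟨s, hs⟩
      rw [Option.isSome_iff_exists] at hs
      obtain ⟨y, hy⟩ := hs
      exact ⟨y, Code.evaln_sound (Option.mem_def.2 hy)⟩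

theorem rePred_comp {p : β → Prop} (hp : REPred p) {f : α → β} (hf : Computable f) :
    REPred fun a => p (f a) := by
  obtain ⟨b, hb, h⟩ := exists_bool_of_rePred hp
  exact rePred_of_bool (b := fun a s => b (f a) s)
    (hb.to_comp.comp (hf.comp Computable.fst) Computable.snd) fun a => h (f a)

theorem rePred_exists {p : α × β → Prop} (hp : REPred p) : REPred fun a => ∃ y, p (a, y) := by
  obtain ⟨b, hb, h⟩ := exists_bool_of_rePred hp
  refine rePred_of_bool (b := fun a s =>
    ((Encodable.decode s.unpair.1 : Option β).map fun y => b (a, y) s.unpair.2).getD false) ?_ ?_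
  · have h1 : Computable fun q : α × ℕ => (Encodable.decode q.2.unpair.1 : Option β) :=
      Computable.decode.comp (Computable.fst.comp (Computable.unpair.comp Computable.snd))
    have h2 : Computable₂ fun (q : α × ℕ) (y : β) => b (q.1, y) q.2.unpair.2 :=
      hb.to_comp.comp (Computable.pair (Computable.fst.comp Computable.fst) Computable.snd)
        (Computable.snd.comp (Computable.unpair.comp (Computable.snd.comp Computable.fst)))
    exact Primrec.option_getD.to_comp.comp (Computable.option_map h1 h2) (Computable.const false)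
  · intro a
    constructor
    · rintro ⟨y, hy⟩
      obtain ⟨s, hs⟩ := (h _).1 hy
      refine ⟨Nat.pair (Encodable.encode y) s, ?_⟩
      simp [hs]
    · rintro ⟨s, hs⟩
      rcases hd : (Encodable.decode s.unpair.1 : Option β) with _ | y
      · rw [hd] at hs; simp at hs
      · rw [hd] at hs
        exact ⟨y, (h _).2 ⟨_, by simpa using hs⟩⟩

theorem rePred_and {p q : α → Prop} (hp : REPred p) (hq : REPred q) :
    REPred fun a => p a ∧ q a := by
  obtain ⟨b, hb, h⟩ := exists_bool_of_rePred hp
  obtain ⟨b', hb', h'⟩ := exists_bool_of_rePred hq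
  refine rePred_of_bool (b := fun a s => b a s.unpair.1 && b' a s.unpair.2) ?_ ?_
  · exact Primrec.and.to_comp.comp
      (hb.to_comp.comp Computable.fst (Computable.fst.comp (Computable.unpair.comp Computable.snd)))
      (hb'.to_comp.comp Computable.fst (Computable.snd.comp (Computable.unpair.comp Computable.snd)))
  · intro a
    rw [h, h']
    constructor
    · rintro ⟨⟨s, hs⟩, ⟨t, ht⟩⟩
      exact ⟨Nat.pair s t, by simp [hs, ht]⟩
    · rintro ⟨s, hs⟩
      rw [Bool.and_eq_true] at hs
      exact ⟨⟨_, hs.1⟩, ⟨_, hs.2⟩⟩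

theorem rePred_of_computable {b : α → Bool} (hb : Computable b) : REPred fun a => b a = true :=
  rePred_of_bool (b := fun a _ => b a) (hb.comp Computable.fst)
    fun a => ⟨fun h => ⟨0, h⟩, fun ⟨_, h⟩ => h⟩

/-- The graph of a partial computable function is recursively enumerable. -/
theorem rePred_mem {f : α →. ℕ} (hf : Partrec f) : REPred fun q : α × ℕ => q.2 ∈ f q.1 := by
  obtain ⟨c, hc⟩ := Code.exists_code.1 hf
  refine rePred_of_bool (b := fun q s =>
    decide (Code.evaln s c (Encodable.encode q.1) = some q.2)) ?_ ?_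
  · have h1 : Primrec fun r : (α × ℕ) × ℕ => Code.evaln r.2 c (Encodable.encode r.1.1) :=
      Code.primrec_evaln.comp ((Primrec.snd.pair (Primrec.const c)).pair
        (Primrec.encode.comp (Primrec.fst.comp Primrec.fst)))
    exact (Primrec.eq.comp h1 (Primrec.option_some.comp
      (Primrec.snd.comp Primrec.fst))).decide.to_comp
  · rintro ⟨a, v⟩
    have h1 : v ∈ f a ↔ v ∈ c.eval (Encodable.encode a) := by
      rw [hc]
      simp
    simp only [decide_eq_true_eq]
    rw [h1, Code.evaln_complete]
    exact Iff.rfl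

/-! ### limit computable functions -/

/-- Limit computable functions. -/
def LimC (f : α → β) : Prop :=
  ∃ g : ℕ → α → β, Computable₂ g ∧ ∀ a, ∀ᶠ s in atTop, g s a = f a

theorem LimC.of_computable {f : α → β} (hf : Computable f) : LimC f :=
  ⟨fun _ a => f a, hf.comp Computable.snd, fun _ => Eventually.of_forall fun _ => rfl⟩

theorem LimC.comp {f : β → γ} {h : α → β} (hf : LimC f) (hh : LimC h) :
    LimC fun a => f (h a) := by
  obtain ⟨g, hg, hg'⟩ := hf
  obtain ⟨k, hk, hk'⟩ := hh
  refine ⟨fun s a => g s (k s a), hg.comp Computable.fst hk, fun a => ?_⟩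
  filter_upwards [hg' (h a), hk' a] with s h1 h2
  rw [h2, h1]

theorem LimC.pair {f : α → β} {h : α → γ} (hf : LimC f) (hh : LimC h) :
    LimC fun a => (f a, h a) := by
  obtain ⟨g, hg, hg'⟩ := hf
  obtain ⟨k, hk, hk'⟩ := hh
  refine ⟨fun s a => (g s a, k s a), Computable.pair hg hk, fun a => ?_⟩
  filter_upwards [hg' a, hk' a] with s h1 h2
  rw [h1, h2]

theorem LimC.comp₂ {f : β × γ → δ} {h : α → β} {k : α → γ} (hf : LimC f) (hh : LimC h)
    (hk : LimC k) : LimC fun a => f (h a, k a) := hf.comp (hh.pair hk)

theorem LimC.of_eq {f h : α → β} (hf : LimC f) (H : ∀ a, f a = h a) : LimC h :=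
  (funext H : f = h) ▸ hf

theorem LimC.nat_rec {f : α → ℕ} {g : α → β} {h : α × (ℕ × β) → β} (hf : LimC f) (hg : LimC g)
    (hh : LimC h) : LimC fun a => (Nat.rec (g a) (fun n b => h (a, (n, b))) (f a) : β) := by
  obtain ⟨f', cf, ef⟩ := hf
  obtain ⟨g', cg, eg⟩ := hg
  obtain ⟨h', ch, eh⟩ := hh
  refine ⟨fun s a => (Nat.rec (g' s a) (fun n b => h' s (a, (n, b))) (f' s a) : β), ?_, ?_⟩
  · exact Computable.nat_rec (f := fun q : ℕ × α => f' q.1 q.2) (g := fun q : ℕ × α => g' q.1 q.2)
      (h := fun (q : ℕ × α) (r : ℕ × β) => h' q.1 (q.2, r)) cf cg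
      (ch.comp (Computable.fst.comp Computable.fst)
        (Computable.pair (Computable.snd.comp Computable.fst) Computable.snd))
  · intro a
    have key : ∀ n, ∀ᶠ s in atTop, (Nat.rec (g' s a) (fun n b => h' s (a, (n, b))) n : β) =
        (Nat.rec (g a) (fun n b => h (a, (n, b))) n : β) := by
      intro n
      induction n with
      | zero => exact eg a
      | succ n ih =>
        filter_upwards [ih, eh (a, (n, (Nat.rec (g a) (fun n b => h (a, (n, b))) n : β)))]
          with s h1 h2
        show h' s (a, (n, _)) = h (a, (n, _))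
        rw [h1, h2]
    filter_upwards [key (f a), ef a] with s h1 h2
    rw [h2, h1]

open Classical in
/-- The characteristic function of a recursively enumerable predicate is limit computable. -/
theorem LimC.of_rePred {p : α → Prop} (hp : REPred p) : LimC fun a => decide (p a) := by
  obtain ⟨b, hb, h⟩ := exists_bool_of_rePred hp
  refine ⟨fun s a => (Nat.rec false (fun t acc => acc || b a t) s : Bool), ?_, ?_⟩
  · refine Computable.nat_rec (f := fun q : ℕ × α => q.1) (g := fun _ => false)
      (h := fun (q : ℕ × α) (r : ℕ × Bool) => r.2 || b q.2 r.1) Computable.fst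
      (Computable.const _) ?_
    exact Primrec.or.to_comp.comp (Computable.snd.comp Computable.snd)
      (hb.to_comp.comp (Computable.snd.comp Computable.fst) (Computable.fst.comp Computable.snd))
  · intro a
    have key : ∀ s, ((Nat.rec false (fun t acc => acc || b a t) s : Bool) = true ↔
        ∃ t < s, b a t = true) := by
      intro s
      induction s with
      | zero => simp
      | succ s ih =>
        show ((Nat.rec false (fun t acc => acc || b a t) s : Bool) || b a s) = true ↔ _
        rw [Bool.or_eq_true, ih]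
        constructor
        · rintro (⟨t, ht, h⟩ | h)
          · exact ⟨t, Nat.lt_succ_of_lt ht, h⟩
          · exact ⟨s, Nat.lt_succ_self s, h⟩
        · rintro ⟨t, ht, h⟩
          rcases Nat.lt_succ_iff_lt_or_eq.1 ht with ht | rfl
          · exact Or.inl ⟨t, ht, h⟩
          · exact Or.inr h
    by_cases hpa : p a
    · obtain ⟨t, ht⟩ := (h a).1 hpa
      filter_upwards [eventually_gt_atTop t] with s hs
      show (Nat.rec false (fun t acc => acc || b a t) s : Bool) = decide (p a)
      rw [decide_eq_true hpa]
      exact (key s).2 ⟨t, hs, ht⟩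
    · refine Eventually.of_forall fun s => ?_
      show (Nat.rec false (fun t acc => acc || b a t) s : Bool) = decide (p a)
      rw [decide_eq_false hpa]
      by_contra hne
      rw [Bool.not_eq_false] at hne
      obtain ⟨t, _, ht⟩ := (key s).1 hne
      exact hpa ((h a).2 ⟨t, ht⟩)

theorem LimC.cond {c : α → Bool} {f g : α → β} (hc : LimC c) (hf : LimC f) (hg : LimC g) :
    LimC fun a => bif c a then f a else g a := by
  obtain ⟨c', cc, ec⟩ := hc
  obtain ⟨f', cf, ef⟩ := hf
  obtain ⟨g', cg, eg⟩ := hg
  refine ⟨fun s a => bif c' s a then f' s a else g' s a, Computable.cond cc cf cg, fun a => ?_⟩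
  filter_upwards [ec a, ef a, eg a] with s h1 h2 h3
  rw [h1, h2, h3]

end Pool.Agent.EXLow
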