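import Pool.Agent.EXLow.Use
import Pool.Agent.EXLow.Tools

set_option autoImplicit false

namespace Pool.Agent.EXLow

open MeasureTheory Filter
open Nat.Partrec (Code)
open scoped ENNReal

/-! ### strings and cylinders -/

theorem mem_cyl {X : ℕ → Bool} {σ : List Bool} : X ∈ cyl σ ↔ pre X σ.length = σ := Iff.rfl

theorem mem_cyl_pre (X : ℕ → Bool) (n : ℕ) : X ∈ cyl (pre X n) := by
  rw [mem_cyl, pre_length]

theorem mem_cyl_iff {X : ℕ → Bool} {σ : List Bool} {n : ℕ} (h : σ.length ≤ n) :
    X ∈ cyl σ ↔ σ <+: pre X n := by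
  rw [mem_cyl, List.prefix_iff_eq_take, take_pre X h]
  exact eq_comm

theorem mem_cyl_take {X : ℕ → Bool} {σ : List Bool} (h : X ∈ cyl σ) (n : ℕ) :
    X ∈ cyl (σ.take n) := by
  rw [mem_cyl_iff (n := σ.length) (by simp)]
  rw [mem_cyl.1 h]
  exact List.take_prefix _ _

theorem cyl_anti {σ τ : List Bool} (h : σ <+: τ) : cyl τ ⊆ cyl σ := by
  intro X hX
  rw [List.prefix_iff_eq_take] at h
  rw [h]
  exact mem_cyl_take hX _

theorem prefix_of_mem {X : ℕ → Bool} {σ τ : List Bool} (h1 : X ∈ cyl σ) (h2 : X ∈ cyl τ)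
    (h : σ.length ≤ τ.length) : σ <+: τ := by
  rw [mem_cyl_iff h, mem_cyl.1 h2] at h1
  exact h1

/-- A real beginning with `σ`. -/
def ext (σ : List Bool) : ℕ → Bool := fun n => σ.getD n false

theorem ext_mem (σ : List Bool) : ext σ ∈ cyl σ := by
  rw [mem_cyl]
  apply List.ext_getElem?
  intro i
  rw [pre_getElem?]
  split_ifs with h
  · rw [List.getElem?_eq_getElem h]
    simp [ext, List.getD_eq_getElem?_getD, h]
  · rw [List.getElem?_eq_none (not_lt.1 h)]

theorem measurableSet_cyl (σ : List Bool) : MeasurableSet (cyl σ) := by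
  have : cyl σ = Set.pi (Finset.range σ.length : Set ℕ) (fun i => {σ.getD i false}) := by
    ext X
    rw [mem_cyl]
    simp only [Set.mem_pi, Set.mem_singleton_iff, Finset.coe_range, Set.mem_Iio]
    constructor
    · intro h i hi
      have := congrArg (fun l : List Bool => l[i]?) h
      simp only [pre_getElem?, if_pos hi] at this
      rw [List.getD_eq_getElem?_getD, ← this]; rfl
    · intro h
      apply List.ext_getElem?
      intro i
      rw [pre_getElem?]
      split_ifs with hi
      · rw [h i hi, List.getD_eq_getElem?_getD, List.getElem?_eq_getElem hi]; rfl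
      · rw [List.getElem?_eq_none (not_lt.1 hi)]
  rw [this]
  exact MeasurableSet.pi (Set.to_countable _) fun i _ => MeasurableSet.singleton _

theorem measurableSet_openOf (W : ℕ × List Bool → Prop) (k : ℕ) :
    MeasurableSet (openOf W k) :=
  MeasurableSet.biUnion (Set.to_countable _) fun σ _ => measurableSet_cyl σ

theorem mem_openOf {W : ℕ × List Bool → Prop} {k : ℕ} {X : ℕ → Bool} :
    X ∈ openOf W k ↔ ∃ σ, W (k, σ) ∧ X ∈ cyl σ := by
  simp [openOf]

/-! ### the coin measure -/

/-- A fair coin. -/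
noncomputable def coin : Measure Bool := (PMF.uniformOfFintype Bool).toMeasure

noncomputable instance : IsProbabilityMeasure coin := by unfold coin; infer_instance

theorem coin_singleton (b : Bool) : coin {b} = 1 / 2 := by
  unfold coin
  rw [PMF.toMeasure_apply_singleton _ _ (MeasurableSet.singleton b)]
  simp

/-- The uniform measure on Cantor space. -/
noncomputable def lam : Measure (ℕ → Bool) := Measure.infinitePi fun _ : ℕ => coin

noncomputable instance : IsProbabilityMeasure lam := by unfold lam; infer_instance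

theorem lam_cyl (σ : List Bool) : lam (cyl σ) = (1 / 2) ^ σ.length := by
  have : cyl σ = Set.pi (Finset.range σ.length : Set ℕ) (fun i => {σ.getD i false}) := by
    ext X
    rw [mem_cyl]
    simp only [Set.mem_pi, Set.mem_singleton_iff, Finset.coe_range, Set.mem_Iio]
    constructor
    · intro h i hi
      have := congrArg (fun l : List Bool => l[i]?) h
      simp only [pre_getElem?, if_pos hi] at this
      rw [List.getD_eq_getElem?_getD, ← this]; rfl
    · intro h
      apply List.ext_getElem?
      intro i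
      rw [pre_getElem?]
      split_ifs with hi
      · rw [h i hi, List.getD_eq_getElem?_getD, List.getElem?_eq_getElem hi]; rfl
      · rw [List.getElem?_eq_none (not_lt.1 hi)]
  rw [this, lam, Measure.infinitePi_pi _ fun i _ => MeasurableSet.singleton _]
  simp [coin_singleton]

theorem lam_cyl_ne_zero (σ : List Bool) : lam (cyl σ) ≠ 0 := by
  rw [lam_cyl]
  simp

theorem lam_cyl_ne_top (σ : List Bool) : lam (cyl σ) ≠ ∞ := measure_ne_top _ _

/-- The uniform measure on the cylinder of `ρ`. -/
noncomputable def lamC (ρ : List Bool) : Measure (ℕ → Bool) := ProbabilityTheory.cond lam (cyl ρ)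

noncomputable instance (ρ : List Bool) : IsProbabilityMeasure (lamC ρ) :=
  ProbabilityTheory.cond_isProbabilityMeasure (lam_cyl_ne_zero ρ)

theorem lamC_apply (ρ : List Bool) (s : Set (ℕ → Bool)) :
    lamC ρ s = 2 ^ ρ.length * lam (cyl ρ ∩ s) := by
  unfold lamC
  rw [ProbabilityTheory.cond_apply (measurableSet_cyl ρ), lam_cyl]
  congr 1
  rw [one_div, ENNReal.inv_pow, inv_inv]

theorem lamC_of_prefix {ρ σ : List Bool} (h : ρ <+: σ) :
    lamC ρ (cyl σ) = (1 / 2) ^ (σ.length - ρ.length) := by
  rw [lamC_apply, Set.inter_eq_right.2 (cyl_anti h), lam_cyl]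
  obtain ⟨d, hd⟩ := Nat.exists_eq_add_of_le h.length_le
  rw [hd, Nat.add_sub_cancel_left, pow_add, ← mul_assoc, ← mul_pow, one_div,
    ENNReal.mul_inv_cancel (by simp) (by simp), one_pow, one_mul]

theorem lamC_of_prefix' {ρ σ : List Bool} (h : σ <+: ρ) : lamC ρ (cyl σ) = 1 := by
  rw [lamC_apply, Set.inter_eq_left.2 (cyl_anti h), lam_cyl, ← mul_pow, one_div,
    ENNReal.mul_inv_cancel (by simp) (by simp), one_pow]

theorem lamC_of_not {ρ σ : List Bool} (h1 : ¬ ρ <+: σ) (h2 : ¬ σ <+: ρ) :
    lamC ρ (cyl σ) = 0 := by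
  rw [lamC_apply]
  have : cyl ρ ∩ cyl σ = ∅ := by
    rw [Set.eq_empty_iff_forall_notMem]
    rintro X ⟨ha, hb⟩
    rcases le_total ρ.length σ.length with h | h
    · exact h1 (prefix_of_mem ha hb h)
    · exact h2 (prefix_of_mem hb ha h)
  rw [this, measure_empty, mul_zero]

/-! ### existence of random reals -/

theorem null_nonrandom (μ : Measure (ℕ → Bool)) : μ {X | ¬ MLRandom μ X} = 0 := by
  classical
  let Wc : Code → ℕ × List Bool → Prop := fun c q => (c.eval (Encodable.encode q)).Dom
  have hsub : {X | ¬ MLRandom μ X} ⊆ ⋃ c : Code,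
      (if MLTest μ (Wc c) then ⋂ k, openOf (Wc c) k else ∅) := by
    intro X hX
    simp only [Set.mem_ofPred_eq, MLRandom, not_forall, not_exists, not_not] at hX
    obtain ⟨W, hW, hX⟩ := hX
    obtain ⟨c, hc⟩ := Code.exists_code.1 hW.1
    have h1 : Wc c = W := by
      funext q
      apply propext
      show (c.eval (Encodable.encode q)).Dom ↔ W q
      rw [hc]
      simp [Part.assert, Part.bind]
    refine Set.mem_iUnion.2 ⟨c, ?_⟩
    rw [h1, if_pos hW]
    exact Set.mem_iInter.2 hX
  refine measure_mono_null hsub (measure_iUnion_null fun c => ?_)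
  split_ifs with h
  · have h2 : ∀ k : ℕ, μ (⋂ k, openOf (Wc c) k) ≤ (1 / 2) ^ k := fun k =>
      (measure_mono (Set.iInter_subset _ k)).trans (h.2 k)
    have h3 : Tendsto (fun k : ℕ => ((1 / 2 : ℝ≥0∞)) ^ k) atTop (nhds 0) :=
      ENNReal.tendsto_pow_atTop_nhds_zero_of_lt_one (by simp)
    exact le_antisymm (ge_of_tendsto' h3 h2) zero_le
  · exact measure_empty

theorem exists_random {μ : Measure (ℕ → Bool)} {s : Set (ℕ → Bool)} (h : μ s ≠ 0) :
    ∃ X ∈ s, MLRandom μ X := by
  by_contra hc
  push Not at hc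
  apply h
  exact measure_mono_null (fun X hX => hc X hX) (null_nonrandom μ)

theorem mem_of_random {ρ : List Bool} {X : ℕ → Bool} (h : MLRandom (lamC ρ) X) : X ∈ cyl ρ := by
  by_contra hX
  have hT : MLTest (lamC ρ)
      (fun q => (decide (q.2.length = ρ.length) && !decide (q.2 = ρ)) = true) := by
    constructor
    · refine rePred_of_computable (Primrec.to_comp ?_)
      exact Primrec.and.comp (Primrec.eq.decide.comp (Primrec.list_length.comp Primrec.snd)
        (Primrec.const ρ.length)) (Primrec.not.comp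
          (Primrec.eq.decide.comp Primrec.snd (Primrec.const ρ)))
    · intro k
      rw [lamC_apply]
      have : cyl ρ ∩ openOf (fun q : ℕ × List Bool =>
          (decide (q.2.length = ρ.length) && !decide (q.2 = ρ)) = true) k = ∅ := by
        rw [Set.eq_empty_iff_forall_notMem]
        rintro Y ⟨h1, h2⟩
        rw [mem_openOf] at h2
        obtain ⟨σ, hσ, h2⟩ := h2
        simp only [Bool.and_eq_true, decide_eq_true_eq, Bool.not_eq_true',
          decide_eq_false_iff_not] at hσ
        rw [mem_cyl] at h1 h2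
        rw [hσ.1, h1] at h2
        exact hσ.2 h2.symm
      rw [this, measure_empty, mul_zero]
      exact zero_le
  obtain ⟨k, hk⟩ := h _ hT
  apply hk
  rw [mem_openOf]
  refine ⟨pre X ρ.length, ?_, mem_cyl_pre X _⟩
  rw [mem_cyl] at hX
  simp [pre_length, hX]

theorem random_transfer {ρ ρ' : List Bool} {X : ℕ → Bool} (h : MLRandom (lamC ρ) X)
    (hX : X ∈ cyl ρ') : MLRandom (lamC ρ') X := by
  intro W hW
  let W' : ℕ × List Bool → Prop := fun q =>
    decide (q.2.take ρ'.length = ρ') = true ∧ ∃ n : ℕ, W (q.1 + ρ.length, q.2.take n)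
  have hop : ∀ k, openOf W' k = cyl ρ' ∩ openOf W (k + ρ.length) := by
    intro k
    ext Y
    rw [Set.mem_inter_iff, mem_openOf, mem_openOf]
    constructor
    · rintro ⟨σ, ⟨h1, n, h2⟩, h3⟩
      simp only [decide_eq_true_eq] at h1
      refine ⟨?_, σ.take n, h2, mem_cyl_take h3 n⟩
      rw [← h1]
      exact mem_cyl_take h3 _
    · rintro ⟨h1, σ, h2, h3⟩
      refine ⟨pre Y (max ρ'.length σ.length), ⟨?_, σ.length, ?_⟩, mem_cyl_pre Y _⟩
      · rw [decide_eq_true_eq, take_pre Y (le_max_left _ _)]
        exact h1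
      · rw [take_pre Y (le_max_right _ _)]
        rw [mem_cyl] at h3
        rw [h3]
        exact h2
  have hW' : MLTest (lamC ρ) W' := by
    constructor
    · refine rePred_and ?_ ?_
      · refine rePred_of_computable (Primrec.to_comp ?_)
        exact Primrec.eq.decide.comp (Primrec.list_take.comp (Primrec.const _) Primrec.snd)
          (Primrec.const ρ')
      · refine rePred_exists (p := fun q : (ℕ × List Bool) × ℕ =>
          W (q.1.1 + ρ.length, q.1.2.take q.2)) ?_
        refine rePred_comp hW.1 (f := fun q : (ℕ × List Bool) × ℕ =>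
          (q.1.1 + ρ.length, q.1.2.take q.2)) (Primrec.to_comp ?_)
        exact Primrec.pair (Primrec.nat_add.comp (Primrec.fst.comp Primrec.fst) (Primrec.const _))
          (Primrec.list_take.comp Primrec.snd (Primrec.snd.comp Primrec.fst))
    · intro k
      rw [hop k, lamC_apply]
      have h1 : lam (cyl ρ ∩ (cyl ρ' ∩ openOf W (k + ρ.length))) ≤
          lam (cyl ρ' ∩ openOf W (k + ρ.length)) := measure_mono Set.inter_subset_right
      have h2 : lam (cyl ρ' ∩ openOf W (k + ρ.length)) ≤
          lamC ρ' (openOf W (k + ρ.length)) := by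
        rw [lamC_apply]
        calc lam (cyl ρ' ∩ openOf W (k + ρ.length))
            = 1 * lam (cyl ρ' ∩ openOf W (k + ρ.length)) := (one_mul _).symm
          _ ≤ _ := by
            gcongr
            exact one_le_pow_of_one_le' (by norm_num) _
      calc 2 ^ ρ.length * lam (cyl ρ ∩ (cyl ρ' ∩ openOf W (k + ρ.length)))
          ≤ 2 ^ ρ.length * (1 / 2) ^ (k + ρ.length) := by
            gcongr
            exact (h1.trans h2).trans (hW.2 _)
        _ = (1 / 2) ^ k := by
            rw [pow_add, mul_comm ((1 / 2 : ℝ≥0∞) ^ k), ← mul_assoc, ← mul_pow, one_div,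
              ENNReal.mul_inv_cancel (by simp) (by simp), one_pow, one_mul]
  obtain ⟨k, hk⟩ := h W' hW'
  refine ⟨k + ρ.length, fun hc => hk ?_⟩
  rw [hop k]
  exact ⟨hX, hc⟩

end Pool.Agent.EXLow
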