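import Mathlib

set_option autoImplicit false

/-!
# EX-learning of computable reals and of computable measures: definitions
-/

namespace Pool.Agent.EXLow

open MeasureTheory Nat.Partrec Filter

/-- The finite string consisting of the first `n` bits of the real `X`. -/
def pre (X : ℕ → Bool) (n : ℕ) : List Bool := (List.range n).map X

/-- The cylinder of all reals which begin with the string `σ`. -/
def cyl (σ : List Bool) : Set (ℕ → Bool) := {X | pre X σ.length = σ}

/-- The `e`-th partial computable function `φ_e` (from naturals to naturals). -/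
def phi (e : ℕ) : ℕ →. ℕ := (Denumerable.ofNat Code e).eval

/-- `e` is an index of the computable real `Z`: the `e`-th partial computable function is total
and computes `Z`. -/
def RealIndex (e : ℕ) (Z : ℕ → Bool) : Prop :=
  ∀ n, phi e n = Part.some (Z n).toNat

/-- `e` is an index of the measure `μ` on Cantor space: on input `(σ, k)` the `e`-th partial
computable function halts and outputs a natural number `a` with `|μ [σ] - a / 2 ^ k| ≤ 1 / 2 ^ k`
(for every string `σ` and every precision `k`). -/
def MeasIndex (e : ℕ) (μ : Measure (ℕ → Bool)) : Prop :=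
  ∀ (σ : List Bool) (k : ℕ), ∃ a ∈ phi e (Encodable.encode (σ, k)),
    |(μ (cyl σ)).toReal - (a : ℝ) / 2 ^ k| ≤ 1 / 2 ^ k

/-- Computable probability measures on Cantor space. -/
def CompMeasure (μ : Measure (ℕ → Bool)) : Prop :=
  IsProbabilityMeasure μ ∧ ∃ e, MeasIndex e μ

/-- The open set generated by the `k`-th section of a relation between naturals and strings. -/
def openOf (W : ℕ × List Bool → Prop) (k : ℕ) : Set (ℕ → Bool) :=
  ⋃ σ ∈ {σ : List Bool | W (k, σ)}, cyl σ

/-- Martin-Loef tests with respect to `μ`: uniformly recursively enumerable sequences of open sets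
`U k` with `μ (U k) ≤ 2 ^ (-k)`. -/
def MLTest (μ : Measure (ℕ → Bool)) (W : ℕ × List Bool → Prop) : Prop :=
  REPred W ∧ ∀ k, μ (openOf W k) ≤ (1 / 2) ^ k

/-- Martin-Loef randomness with respect to `μ`. -/
def MLRandom (μ : Measure (ℕ → Bool)) (X : ℕ → Bool) : Prop :=
  ∀ W, MLTest μ W → ∃ k, X ∉ openOf W k

/-- The learner `L` EX-learns the class `C` of reals. -/
def LearnsReals (L : List Bool → ℕ) (C : Set (ℕ → Bool)) : Prop :=
  ∀ Z ∈ C, ∃ e, (∀ᶠ n in atTop, L (pre Z n) = e) ∧ RealIndex e Z

/-- The learner `L` EX-learns the class `V` of measures. -/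
def LearnsMeasures (L : List Bool → ℕ) (V : Set (Measure (ℕ → Bool))) : Prop :=
  ∀ μ ∈ V, ∀ X, MLRandom μ X →
    ∃ e, (∀ᶠ n in atTop, L (pre X n) = e) ∧ ∃ ν ∈ V, MeasIndex e ν ∧ MLRandom ν X

/-- The characteristic function of the oracle `A`. -/
def orc (A : ℕ → Bool) : ℕ →. ℕ := fun n => Part.some (A n).toNat

/-- The oracle `A` is low for EX-learning of reals. -/
def LowReals (A : ℕ → Bool) : Prop :=
  ∀ C : Set (ℕ → Bool), (∀ Z ∈ C, ∃ e, RealIndex e Z) →
    (∃ L : List Bool → ℕ, ComputableIn {orc A} L ∧ LearnsReals L C) →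
      ∃ L : List Bool → ℕ, Computable L ∧ LearnsReals L C

/-- The oracle `A` is low for EX-learning of measures. -/
def LowMeasures (A : ℕ → Bool) : Prop :=
  ∀ V : Set (Measure (ℕ → Bool)), (∀ μ ∈ V, CompMeasure μ) →
    (∃ L : List Bool → ℕ, ComputableIn {orc A} L ∧ LearnsMeasures L V) →
      ∃ L : List Bool → ℕ, Computable L ∧ LearnsMeasures L V

/-- `A` is 1-generic: for every recursively enumerable set `W` of strings some initial segment of
`A` is in `W` or has no extension in `W`. -/
def OneGeneric (A : ℕ → Bool) : Prop :=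
  ∀ W : List Bool → Prop, REPred W → ∃ n, W (pre A n) ∨ ∀ ξ, ¬ W (pre A n ++ ξ)

/-- `A` is limit computable (that is, computable from the halting problem): some computable
function `g` satisfies `lim g s n = A n` for every `n`. -/
def LimitComputable (A : ℕ → Bool) : Prop :=
  ∃ g : ℕ → ℕ → Bool, Computable₂ g ∧ ∀ n, ∀ᶠ s in atTop, g s n = A n

end Pool.Agent.EXLow
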