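import Pool.Agent.EXLow.Orac

set_option autoImplicit false

namespace Pool.Agent.EXLow

open MeasureTheory Filter
open Nat.Partrec (Code)
open scoped ENNReal

/-! ### the strings `0 ^ i 1` -/

/-- The string `0 ^ i 1`. -/
def cI (i : ℕ) : List Bool := List.replicate i false ++ [true]

theorem cI_length (i : ℕ) : (cI i).length = i + 1 := by simp [cI]

theorem cI_idx (i : ℕ) : (cI i).idxOf true = i := by
  unfold cI
  rw [List.idxOf_append_of_notMem (by simp [List.mem_replicate])]
  simp

theorem prefix_cI {ρ : List Bool} (h : ρ.idxOf true < ρ.length) : cI (ρ.idxOf true) <+: ρ := by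
  induction ρ with
  | nil => simp at h
  | cons b ρ ih =>
    cases b
    · have h1 : (false :: ρ).idxOf true = ρ.idxOf true + 1 := List.idxOf_cons_ne _ (by simp)
      rw [h1] at h ⊢
      have h2 := ih (by simpa using h)
      have h3 : cI (ρ.idxOf true + 1) = false :: cI (ρ.idxOf true) := by
        simp [cI, List.replicate_succ]
      rw [h3]
      exact (List.cons_prefix_cons).2 ⟨rfl, h2⟩
    · have h1 : (true :: ρ).idxOf true = 0 := List.idxOf_cons_self
      rw [h1]
      show cI 0 <+: true :: ρ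
      exact ⟨ρ, rfl⟩

theorem idx_of_prefix_cI {ρ : List Bool} {i : ℕ} (h : cI i <+: ρ) : ρ.idxOf true = i := by
  rw [idxOf_prefix h (by rw [cI_idx, cI_length]; omega), cI_idx]

theorem idx_eq {X : ℕ → Bool} {ρ : List Bool} {i : ℕ} (h1 : X ∈ cyl (cI i)) (h2 : X ∈ cyl ρ)
    (h : ρ.idxOf true < ρ.length) : ρ.idxOf true = i := by
  have h3 : X ∈ cyl (cI (ρ.idxOf true)) := cyl_anti (prefix_cI h) h2
  rcases le_total (cI i).length (cI (ρ.idxOf true)).length with hl | hl
  · have := idx_of_prefix_cI (prefix_of_mem h1 h3 hl)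
    rwa [cI_idx] at this
  · have := idx_of_prefix_cI (prefix_of_mem h3 h1 hl)
    rw [cI_idx] at this
    exact this.symm

/-! ### the class -/

/-- Learner number `i` is refuted by evidence. -/
def Ref (i : ℕ) : Prop :=
  ∃ p ρ, Ev orac p ρ ∧ ρ.idxOf true = i ∧ (∀ p' ρ', Ev orac p' ρ' → ρ' <+: ρ → ρ' = ρ) ∧
    ¬ Believe i ρ

/-- The class of measures. -/
def classV : Set (Measure (ℕ → Bool)) :=
  {μ | (∃ p ρ, Ev orac p ρ ∧ μ = lamC ρ) ∨ ∃ i, ¬ Ref i ∧ μ = lamC (cI i)}

/-- The output string of the oracle learner. -/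
def outS (q : List Bool × List Bool) : List Bool :=
  Option.casesOn (motive := fun _ => List Bool) ((List.range q.2.length).find? fun p =>
    decide ((q.1[p]? = some true ∧ (rhoOf p).length =
      (q.1.take (p + 1)).count true + (rhoOf p).idxOf true + 5) ∧
      q.2.take (rhoOf p).length = rhoOf p)) (cI (q.2.idxOf true)) fun p => rhoOf p

theorem primrec_outS : Primrec outS := by
  classical
  have hR : PrimrecRel fun (p : ℕ) (q : List Bool × List Bool) =>
      ((q.1[p]? = some true ∧ (rhoOf p).length =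
      (q.1.take (p + 1)).count true + (rhoOf p).idxOf true + 5) ∧
      q.2.take (rhoOf p).length = rhoOf p) := by
    show PrimrecPred fun r : ℕ × (List Bool × List Bool) =>
      ((r.2.1[r.1]? = some true ∧ (rhoOf r.1).length =
      (r.2.1.take (r.1 + 1)).count true + (rhoOf r.1).idxOf true + 5) ∧
      r.2.2.take (rhoOf r.1).length = rhoOf r.1)
    refine PrimrecPred.and (PrimrecPred.and ?_ ?_) ?_
    · exact Primrec.eq.comp (Primrec.list_getElem?.comp (Primrec.fst.comp Primrec.snd)
        Primrec.fst) (Primrec.const (some true))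
    · refine Primrec.eq.comp (Primrec.list_length.comp (primrec_rhoOf.comp Primrec.fst)) ?_
      refine Primrec.nat_add.comp (Primrec.nat_add.comp ?_ ?_) (Primrec.const 5)
      · exact primrec_count.comp (Primrec.list_take.comp (Primrec.succ.comp Primrec.fst)
          (Primrec.fst.comp Primrec.snd))
      · exact Primrec.list_idxOf.comp (Primrec.const true) (primrec_rhoOf.comp Primrec.fst)
    · exact Primrec.eq.comp (Primrec.list_take.comp (Primrec.list_length.comp
        (primrec_rhoOf.comp Primrec.fst)) (Primrec.snd.comp Primrec.snd))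
        (primrec_rhoOf.comp Primrec.fst)
  have h1 : Primrec fun q : List Bool × List Bool => (List.range q.2.length).find? fun p =>
      decide ((q.1[p]? = some true ∧ (rhoOf p).length =
      (q.1.take (p + 1)).count true + (rhoOf p).idxOf true + 5) ∧
      q.2.take (rhoOf p).length = rhoOf p) := by
    refine (Primrec.list_head?.comp (hR.listFilter.comp (Primrec.list_range.comp
      (Primrec.list_length.comp Primrec.snd)) Primrec.id)).of_eq fun q => ?_
    rw [List.head?_filter]
    rfl
  have h2 : Primrec cI := by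
    have h3 : Primrec fun n : ℕ => List.replicate n false := by
      refine (Primrec.list_map Primrec.list_range (Primrec.const false).to₂).of_eq fun n => ?_
      simp [List.map_const']
    exact Primrec.list_concat.comp h3 (Primrec.const true)
  exact Primrec.option_casesOn h1 (h2.comp (Primrec.list_idxOf.comp (Primrec.const true)
    Primrec.snd)) (primrec_rhoOf.comp Primrec.snd).to₂

/-- The oracle learner. -/
def learnA (idx : List Bool → ℕ) (A : ℕ → Bool) (ξ : List Bool) : ℕ :=
  idx (outS (pre A ξ.length, ξ))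

theorem outS_some {A X : ℕ → Bool} {p n : ℕ} (hp : Ev A p (rhoOf p)) (hX : X ∈ cyl (rhoOf p))
    (hmin : ∀ p' < p, Ev A p' (rhoOf p') → X ∉ cyl (rhoOf p')) (h1 : p < n)
    (h2 : (rhoOf p).length ≤ n) : outS (pre A n, pre X n) = rhoOf p := by
  unfold outS
  have : ((List.range (pre A n, pre X n).2.length).find? fun p =>
    decide (((pre A n, pre X n).1[p]? = some true ∧ (rhoOf p).length =
      ((pre A n, pre X n).1.take (p + 1)).count true + (rhoOf p).idxOf true + 5) ∧
      (pre A n, pre X n).2.take (rhoOf p).length = rhoOf p)) = some p := by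
    rw [List.find?_range_eq_some]
    simp only [pre_length]
    refine ⟨?_, List.mem_range.2 h1, ?_⟩
    · rw [decide_eq_true_eq]
      refine ⟨(evL_pre h1).2 hp, ?_⟩
      rw [take_pre X h2]
      exact hX
    · intro p' hp'
      rw [Bool.not_eq_true', decide_eq_false_iff_not]
      rintro ⟨h3, h4⟩
      refine hmin p' hp' ((evL_pre (by omega)).1 h3) ?_
      rw [← h4]
      exact mem_cyl_take (mem_cyl_pre X n) _
  rw [this]

theorem outS_none {A X : ℕ → Bool} {i n : ℕ}
    (hmin : ∀ p', Ev A p' (rhoOf p') → X ∉ cyl (rhoOf p')) (hX : X ∈ cyl (cI i))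
    (h1 : i + 1 ≤ n) : outS (pre A n, pre X n) = cI i := by
  unfold outS
  have : ((List.range (pre A n, pre X n).2.length).find? fun p =>
    decide (((pre A n, pre X n).1[p]? = some true ∧ (rhoOf p).length =
      ((pre A n, pre X n).1.take (p + 1)).count true + (rhoOf p).idxOf true + 5) ∧
      (pre A n, pre X n).2.take (rhoOf p).length = rhoOf p)) = none := by
    rw [List.find?_eq_none]
    intro p' hp'
    rw [List.mem_range] at hp'
    simp only [pre_length] at hp'
    rw [decide_eq_true_eq]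
    rintro ⟨h3, h4⟩
    refine hmin p' ((evL_pre hp').1 h3) ?_
    rw [← h4]
    exact mem_cyl_take (mem_cyl_pre X n) _
  rw [this]
  show cI ((pre X n).idxOf true) = cI i
  rw [idx_of_prefix_cI]
  exact (mem_cyl_iff (by rw [cI_length]; exact h1)).1 hX

theorem learnA_learns {idx : List Bool → ℕ} (hidx : ∀ ρ, MeasIndex (idx ρ) (lamC ρ)) :
    LearnsMeasures (learnA idx orac) classV := by
  classical
  intro μ hμ X hX
  by_cases h : ∃ p, Ev orac p (rhoOf p) ∧ X ∈ cyl (rhoOf p)
  · obtain ⟨p, ⟨hp1, hp2⟩, hmin⟩ : ∃ p, (Ev orac p (rhoOf p) ∧ X ∈ cyl (rhoOf p)) ∧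
        ∀ q < p, ¬ (Ev orac q (rhoOf q) ∧ X ∈ cyl (rhoOf q)) :=
      ⟨Nat.find h, Nat.find_spec h, fun q hq => Nat.find_min h hq⟩
    refine ⟨idx (rhoOf p), ?_, lamC (rhoOf p), Or.inl ⟨p, rhoOf p, hp1, rfl⟩, hidx _, ?_⟩
    · filter_upwards [eventually_gt_atTop p, eventually_ge_atTop (rhoOf p).length] with n h1 h2
      unfold learnA
      rw [pre_length, outS_some hp1 hp2 (fun q hq h3 h4 => hmin q hq ⟨h3, h4⟩) h1 h2]
    · rcases hμ with ⟨p', ρ', _, rfl⟩ | ⟨i, _, rfl⟩
      · exact random_transfer hX hp2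
      · exact random_transfer hX hp2
  · push Not at h
    rcases hμ with ⟨p', ρ', hp', rfl⟩ | ⟨i, hi, rfl⟩
    · exfalso
      have h1 := hp'.2.1
      have h2 := mem_of_random hX
      rw [← h1] at hp' h2
      exact h p' hp' h2
    · refine ⟨idx (cI i), ?_, lamC (cI i), Or.inr ⟨i, hi, rfl⟩, hidx _, hX⟩
      filter_upwards [eventually_ge_atTop (i + 1)] with n hn
      unfold learnA
      rw [pre_length, outS_none (fun q h3 h4 => h q h3 h4) (mem_of_random hX) hn]

/-! ### computability of the oracle learner -/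

theorem recursiveIn_pre (A : ℕ → Bool) :
    Nat.RecursiveIn {orc A} fun n => Part.some (Encodable.encode (pre A n)) := by
  -- the step function
  let G : ℕ → ℕ := fun m => Encodable.encode (str m.unpair.1 ++ [decide (m.unpair.2 = 1)])
  have hG : Nat.Partrec fun m => Part.some (G m) := by
    refine Partrec.nat_iff.1 (Primrec.to_comp ?_ : Computable G).partrec
    exact Primrec.encode.comp (Primrec.list_concat.comp
      (primrec_str.comp (Primrec.fst.comp Primrec.unpair))
      (Primrec.eq.decide.comp (Primrec.snd.comp Primrec.unpair) (Primrec.const 1)))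
  have hi : Nat.Partrec fun q => Part.some q.unpair.2.unpair.2 :=
    Partrec.nat_iff.1 (Primrec.to_comp (Primrec.snd.comp (Primrec.unpair.comp
      (Primrec.snd.comp Primrec.unpair))) : Computable fun q : ℕ => q.unpair.2.unpair.2).partrec
  have hy : Nat.Partrec fun q => Part.some q.unpair.2.unpair.1 :=
    Partrec.nat_iff.1 (Primrec.to_comp (Primrec.fst.comp (Primrec.unpair.comp
      (Primrec.snd.comp Primrec.unpair))) : Computable fun q : ℕ => q.unpair.2.unpair.1).partrec
  have h0 : Nat.Partrec fun _ => Part.some (Encodable.encode ([] : List Bool)) :=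
    Partrec.nat_iff.1 (Computable.const (Encodable.encode ([] : List Bool)) :
      Computable fun _ : ℕ => Encodable.encode ([] : List Bool)).partrec
  have horc : Nat.RecursiveIn {orc A} (orc A) := Nat.RecursiveIn.oracle _ rfl
  have hH := Nat.RecursiveIn.comp hG.recursiveIn (Nat.RecursiveIn.pair
    (hi.recursiveIn (O := {orc A})) (Nat.RecursiveIn.comp horc hy.recursiveIn))
  have hP := Nat.RecursiveIn.prec h0.recursiveIn hH
  have hz : Nat.Partrec fun n => Part.some (Nat.pair 0 n) :=
    Partrec.nat_iff.1 (Primrec.to_comp (Primrec₂.natPair.comp (Primrec.const 0) Primrec.id) :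
      Computable fun n : ℕ => Nat.pair 0 n).partrec
  refine Nat.RecursiveIn.of_eq (Nat.RecursiveIn.comp hP hz.recursiveIn) fun n => ?_
  simp only [Part.bind_eq_bind, Part.bind_some, Nat.unpair_pair]
  induction n with
  | zero => rfl
  | succ n ih =>
    simp only [ih]
    simp only [Part.bind_some, Seq.seq, Part.map_eq_map, Part.map_some, orc]
    rw [pre_succ]
    simp only [G, Nat.unpair_pair, str_encode]
    cases A n <;> rfl

theorem computableIn_learnA {idx : List Bool → ℕ} (hidx : Computable idx) (A : ℕ → Bool) :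
    ComputableIn {orc A} (learnA idx A) := by
  have hK : Partrec fun m : ℕ => (((Encodable.decode m.unpair.1 : Option (List Bool)) :
      Part (List Bool)).map fun ξ => idx (outS (str m.unpair.2, ξ))) := by
    refine Partrec.map (Computable.ofOption (Computable.decode.comp
      (Computable.fst.comp Computable.unpair))) ?_
    show Computable fun q : ℕ × List Bool => idx (outS (str q.1.unpair.2, q.2))
    exact hidx.comp (primrec_outS.to_comp.comp (Computable.pair (primrec_str.to_comp.comp
      (Computable.snd.comp (Computable.unpair.comp Computable.fst))) Computable.snd))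
  have hlen : Nat.Partrec fun m => Part.some (str m).length :=
    Partrec.nat_iff.1 (Primrec.to_comp (Primrec.list_length.comp primrec_str) :
      Computable fun m : ℕ => (str m).length).partrec
  have hid : Nat.Partrec fun m => Part.some m :=
    Partrec.nat_iff.1 (Computable.id : Computable fun m : ℕ => m).partrec
  have h1 := Nat.RecursiveIn.comp (Partrec.nat_iff.1 hK).recursiveIn (Nat.RecursiveIn.pair
    (hid.recursiveIn (O := {orc A})) (Nat.RecursiveIn.comp (recursiveIn_pre A) hlen.recursiveIn))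
  refine Nat.RecursiveIn.of_eq h1 fun m => ?_
  simp only [Part.bind_eq_bind, Part.bind_some, Seq.seq, Part.map_eq_map, Part.map_some,
    Nat.unpair_pair, str_encode]
  rcases h : (Encodable.decode m : Option (List Bool)) with _ | ξ
  · simp
  · have : str m = ξ := by simp [str, h]
    simp [this, learnA]

/-! ### index facts -/

theorem exists_gt_of_one {e : ℕ} {ν : Measure (ℕ → Bool)} {ρ : List Bool} (h : MeasIndex e ν)
    (h1 : ν (cyl ρ) = 1) : ∃ a ∈ phi e (Encodable.encode (ρ, 2)), 2 < a := by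
  obtain ⟨a, ha, h2⟩ := h ρ 2
  refine ⟨a, ha, ?_⟩
  rw [h1, ENNReal.toReal_one] at h2
  have h3 := (abs_le.1 h2).2
  by_contra hc
  have h4 : (a : ℝ) ≤ 2 := by exact_mod_cast not_lt.1 hc
  norm_num at h3
  linarith

theorem not_gt_of_small {e : ℕ} {ν : Measure (ℕ → Bool)} {ρ : List Bool} (h : MeasIndex e ν)
    (h1 : (ν (cyl ρ)).toReal ≤ 1 / 4) : ¬ ∃ a ∈ phi e (Encodable.encode (ρ, 2)), 2 < a := by
  rintro ⟨a, ha, h2⟩
  obtain ⟨a', ha', h3⟩ := h ρ 2
  obtain rfl := Part.mem_unique ha ha'
  have h4 := (abs_le.1 h3).1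
  have h5 : (3 : ℝ) ≤ a := by exact_mod_cast h2
  norm_num at h4
  linarith

/-! ### the class is not learnable -/

theorem lamC_ne_zero {ρ : List Bool} {s : Set (ℕ → Bool)} (hs : s ⊆ cyl ρ) (h : lam s ≠ 0) :
    lamC ρ s ≠ 0 := by
  rw [lamC_apply, Set.inter_eq_right.2 hs]
  exact mul_ne_zero (pow_ne_zero _ (by simp)) h

theorem length_allStr (s : ℕ) : (allStr s).length = 2 ^ s := by
  induction s with
  | zero => rfl
  | succ s ih =>
    rw [allStr_succ, List.length_flatMap, pow_succ, ← ih]
    simp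

/-- The set of reals on which learner number `i` does not believe at stage `r`. -/
def badD (i r : ℕ) : Set (ℕ → Bool) :=
  {X | r.unpair.2 = i ∧ ∃ ρ : List Bool, ρ.length = lenC (stepG (tau r, r.unpair.1), i) ∧
    Cand (stepG (tau r, r.unpair.1), i) ρ ∧ X ∈ cyl ρ ∧ X ∉ BelSet i ρ}

theorem believe_of_cand {i r : ℕ} (hi : ¬ Ref i) (hr : r.unpair.2 = i) {ρ : List Bool}
    (h1 : ρ.length = lenC (stepG (tau r, r.unpair.1), i))
    (h2 : Cand (stepG (tau r, r.unpair.1), i) ρ) : Believe i ρ := by
  subst hr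
  rcases pick_spec (stepG (tau r, r.unpair.1), r.unpair.2) with ⟨h3, h4, h5⟩ | h3
  · exfalso
    obtain ⟨p, hp, hsh⟩ := pick_unshadowed r h3 h4
    exact hi ⟨p, _, hp, h4.1, hsh, h5⟩
  · exact h3 ρ h1 h2

theorem lenC_ge (i r : ℕ) : r + i + 6 ≤ lenC (stepG (tau r, r.unpair.1), i) := by
  have h1 : (tau r).count true ≤ (stepG (tau r, r.unpair.1)).count true :=
    (stepG_tau r).sublist.count_le true
  have h2 := le_tau_count r
  unfold lenC
  simp only
  omega

theorem lam_badD {i : ℕ} (hi : ¬ Ref i) (r : ℕ) : lam (badD i r) ≤ (1 / 2) ^ (r + (i + 6)) := by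
  classical
  set ℓ := lenC (stepG (tau r, r.unpair.1), i) with hℓ
  have h1 : badD i r ⊆ ⋃ ρ ∈ (allStr ℓ).toFinset,
      (if Believe i ρ then cyl ρ \ BelSet i ρ else ∅) := by
    rintro X ⟨hr, ρ, h2, h3, h4, h5⟩
    simp only [Set.mem_iUnion, List.mem_toFinset, mem_allStr, exists_prop]
    refine ⟨ρ, h2, ?_⟩
    rw [if_pos (believe_of_cand hi hr h2 h3)]
    exact ⟨h4, h5⟩
  refine (measure_mono h1).trans ((measure_biUnion_finset_le _ _).trans ?_)
  calc ∑ ρ ∈ (allStr ℓ).toFinset, lam (if Believe i ρ then cyl ρ \ BelSet i ρ else ∅)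
      ≤ ∑ _ρ ∈ (allStr ℓ).toFinset, (1 / 4 : ℝ≥0∞) ^ ℓ := by
        refine Finset.sum_le_sum fun ρ hρ => ?_
        rw [List.mem_toFinset, mem_allStr] at hρ
        split_ifs with hb
        · rw [← hρ]
          exact hb.le
        · rw [measure_empty]; exact zero_le
    _ = 2 ^ ℓ * (1 / 4) ^ ℓ := by
        rw [Finset.sum_const, List.toFinset_card_of_nodup (nodup_allStr ℓ), length_allStr,
          nsmul_eq_mul]
        push_cast
        rfl
    _ = (1 / 2) ^ ℓ := by
        rw [← mul_pow]
        congr 1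
        rw [← ENNReal.toReal_eq_toReal_iff' (ENNReal.mul_ne_top (by simp) (by simp)) (by simp)]
        simp
        norm_num
    _ ≤ (1 / 2) ^ (r + (i + 6)) := by
        refine pow_le_pow_right_of_le_one' (by simp) ?_
        have := lenC_ge i r
        omega

theorem tsum_badD {i : ℕ} (hi : ¬ Ref i) : lam (⋃ r, badD i r) ≤ (1 / 2) ^ (i + 5) := by
  refine (measure_iUnion_le _).trans ?_
  calc ∑' r, lam (badD i r) ≤ ∑' r : ℕ, (1 / 2 : ℝ≥0∞) ^ r * (1 / 2) ^ (i + 6) := by
        refine ENNReal.tsum_le_tsum fun r => ?_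
        rw [← pow_add]
        exact lam_badD hi r
    _ = (∑' r : ℕ, (1 / 2 : ℝ≥0∞) ^ r) * (1 / 2) ^ (i + 6) := ENNReal.tsum_mul_right
    _ = 2 * (1 / 2) ^ (i + 6) := by
        rw [ENNReal.tsum_geometric]
        congr 1
        rw [one_div, ENNReal.one_sub_inv_two, inv_inv]
    _ = (1 / 2) ^ (i + 5) := by
        rw [pow_succ (1 / 2 : ℝ≥0∞) (i + 5), mul_comm, mul_assoc, one_div,
          ENNReal.inv_mul_cancel (by simp) (by simp), mul_one]

theorem not_learnable {M : List Bool → ℕ} (hM : Computable M) (hL : LearnsMeasures M classV) :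
    False := by
  obtain ⟨c, hc⟩ := Code.exists_code.1 hM
  set i := Encodable.encode c with hi
  have hphi : ∀ ξ : List Bool, phi i (Encodable.encode ξ) = Part.some (M ξ) := by
    intro ξ
    unfold phi
    rw [hi, Denumerable.ofNat_encode, hc]
    simp
  have hHit : ∀ ρ ξ, Hit i ρ ξ ↔ ∃ a ∈ phi (M ξ) (Encodable.encode (ρ, 2)), 2 < a := by
    intro ρ ξ
    unfold Hit
    rw [hphi]
    simp
  by_cases hR : Ref i
  · obtain ⟨p, ρ, hev, hidx, hsh, hb⟩ := hR
    have hR : Ref i := ⟨p, ρ, hev, hidx, hsh, hb⟩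
    have h1 : lam (cyl ρ \ BelSet i ρ) ≠ 0 := by
      intro h0
      apply hb
      unfold Believe
      rw [h0]
      exact ENNReal.pow_pos (by simp) _
    obtain ⟨X, hX, hrand⟩ := exists_random (lamC_ne_zero Set.sdiff_subset h1)
    obtain ⟨e, he, ν, hν, hind, hrand'⟩ := hL (lamC ρ) (Or.inl ⟨p, ρ, hev, rfl⟩) X hrand
    have hone : ν (cyl ρ) = 1 := by
      rcases hν with ⟨p', ρ', hev', rfl⟩ | ⟨i', hi', rfl⟩
      · have h2 := mem_of_random hrand'
        rcases le_total ρ'.length ρ.length with hl | hl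
        · have := hsh p' ρ' hev' (prefix_of_mem h2 hX.1 hl)
          rw [this]
          exact lamC_of_prefix' (List.prefix_refl _)
        · exact lamC_of_prefix' (prefix_of_mem hX.1 h2 hl)
      · exfalso
        have h2 := mem_of_random hrand'
        have h3 := idx_eq h2 hX.1 hev.idx_lt
        rw [hidx] at h3
        rw [← h3] at hi'
        exact hi' hR
    obtain ⟨n₀, hn₀⟩ := eventually_atTop.1 he
    apply hX.2
    refine ⟨hX.1, max ρ.length n₀, le_max_left _ _, ?_⟩
    rw [hHit, hn₀ _ (le_max_right _ _)]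
    exact exists_gt_of_one hind hone
  · have hV : lamC (cI i) ∈ classV := Or.inr ⟨i, hR, rfl⟩
    have h1 : lam (cyl (cI i) \ (evSet orac i ∪ ⋃ r, badD i r)) ≠ 0 := by
      intro h0
      have h2 : lam (cyl (cI i)) ≤ lam (cyl (cI i) \ (evSet orac i ∪ ⋃ r, badD i r)) +
          lam (evSet orac i ∪ ⋃ r, badD i r) := by
        refine (measure_mono ?_).trans (measure_union_le _ _)
        intro X hX
        by_cases hX' : X ∈ (evSet orac i ∪ ⋃ r, badD i r)
        · exact Or.inr hX'
        · exact Or.inl ⟨hX, hX'⟩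
      have h3 : lam (evSet orac i ∪ ⋃ r, badD i r) ≤ (1 / 2) ^ (i + 5) + (1 / 2) ^ (i + 5) :=
        (measure_union_le _ _).trans (add_le_add (lam_evSet _ _) (tsum_badD hR))
      rw [h0, zero_add, lam_cyl, cI_length] at h2
      have h4 := h2.trans h3
      have h5 : ((1 / 2 : ℝ≥0∞) ^ (i + 5) + (1 / 2) ^ (i + 5)) < (1 / 2) ^ (i + 1) := by
        rw [← ENNReal.toReal_lt_toReal (by simp) (by simp)]
        rw [ENNReal.toReal_add (by simp) (by simp)]
        simp only [ENNReal.toReal_pow, ENNReal.toReal_div, ENNReal.toReal_one,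
          ENNReal.toReal_ofNat]
        rw [pow_add, pow_add]
        have : (0 : ℝ) < (1 / 2) ^ i := by positivity
        nlinarith
      exact absurd h4 (not_le.2 h5)
    obtain ⟨X, hX, hrand⟩ := exists_random (lamC_ne_zero (ρ := cI i) Set.sdiff_subset h1)
    obtain ⟨e, he, ν, hν, hind, hrand'⟩ := hL _ hV X hrand
    have hXe : X ∉ evSet orac i := fun h => hX.2 (Or.inl h)
    have hXb : ∀ r, X ∉ badD i r := fun r h => hX.2 (Or.inr (Set.mem_iUnion.2 ⟨r, h⟩))
    have hν' : ν = lamC (cI i) := by
      rcases hν with ⟨p', ρ', hev', rfl⟩ | ⟨i', hi', rfl⟩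
      · exfalso
        have h2 := mem_of_random hrand'
        exact hXe ⟨p', ρ', hev', idx_eq hX.1 h2 hev'.idx_lt, h2⟩
      · have h2 := mem_of_random hrand'
        have h3 := idx_eq h2 hX.1 (by rw [cI_idx, cI_length]; omega)
        rw [cI_idx] at h3
        rw [h3]
    subst hν'
    obtain ⟨n₀, hn₀⟩ := eventually_atTop.1 he
    set r := Nat.pair n₀ i with hr
    have hr2 : r.unpair.2 = i := by rw [hr, Nat.unpair_pair]
    have hr1 : n₀ ≤ r := Nat.left_le_pair _ _
    set τ := stepG (tau r, r.unpair.1) with hτ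
    have hτp : τ <+: tau (r + 1) := by
      rw [tau_succ]
      exact prefix_place _ _
    have hpre : pre orac τ.length = τ := pre_of_prefix hτp
    set ℓ := lenC (τ, i) with hℓ
    have hℓr : r + i + 6 ≤ ℓ := lenC_ge i r
    have hpref : cI i <+: pre X ℓ :=
      (mem_cyl_iff (by rw [cI_length]; omega)).1 hX.1
    have hcand : Cand (τ, i) (pre X ℓ) := by
      refine ⟨idx_of_prefix_cI hpref, fun p hp hev heq => hXe ?_⟩
      have hev' : Ev orac p (rhoOf p) := by
        rw [← evL_pre (n := τ.length) hp, hpre]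
        exact hev
      have h2 : X ∈ cyl (rhoOf p) := by
        rw [← heq]
        exact mem_cyl_take (mem_cyl_pre X ℓ) _
      exact ⟨p, rhoOf p, hev', idx_eq hX.1 h2 hev'.idx_lt, h2⟩
    have hbel : X ∈ BelSet i (pre X ℓ) := by
      by_contra hc
      exact hXb r ⟨hr2, pre X ℓ, pre_length X ℓ, hcand, mem_cyl_pre X ℓ, hc⟩
    obtain ⟨_, n, hn, hH⟩ := hbel
    rw [pre_length] at hn
    rw [hHit, hn₀ n (by omega)] at hH
    refine not_gt_of_small hind ?_ hH
    rw [lamC_of_prefix hpref, pre_length, cI_length, ENNReal.toReal_pow]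
    simp only [ENNReal.toReal_div, ENNReal.toReal_one, ENNReal.toReal_ofNat]
    calc (1 / 2 : ℝ) ^ (ℓ - (i + 1)) ≤ (1 / 2) ^ 2 :=
          pow_le_pow_of_le_one (by norm_num) (by norm_num) (by omega)
      _ = 1 / 4 := by norm_num

end Pool.Agent.EXLow
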