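import Pool.Agent.EXLow.Belief

set_option autoImplicit false

namespace Pool.Agent.EXLow

open MeasureTheory Filter
open Nat.Partrec (Code)
open scoped ENNReal

/-! ### searching -/

open Classical in
/-- The first value of a stream of optional values. -/
noncomputable def srch (c : ℕ → Option ℕ) : Option ℕ :=
  if h : ∃ s, (c s).isSome = true then c (Nat.find h) else none

theorem eventually_firstU (c : ℕ → Option ℕ) : ∀ᶠ N in atTop, firstU c N = srch c := by
  classical
  unfold srch
  split_ifs with h
  · obtain ⟨v, hv⟩ := Option.isSome_iff_exists.1 (Nat.find_spec h)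
    filter_upwards [eventually_gt_atTop (Nat.find h)] with N hN
    rw [hv]
    refine firstU_some hN (fun q hq => ?_) hv
    have := Nat.find_min h hq
    simpa using this
  · refine Eventually.of_forall fun N => firstU_none fun p _ => ?_
    push Not at h
    have := h p
    simpa using this

theorem srch_none {c : ℕ → Option ℕ} (h : ∀ s, c s = none) : srch c = none := by
  unfold srch
  rw [dif_neg]
  rintro ⟨s, hs⟩
  rw [h s] at hs
  cases hs

theorem srch_some {c : ℕ → Option ℕ} (h : ∃ s, (c s).isSome = true) :
    ∃ s v, c s = some v ∧ srch c = some v := by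
  classical
  obtain ⟨v, hv⟩ := Option.isSome_iff_exists.1 (Nat.find_spec h)
  refine ⟨Nat.find h, v, hv, ?_⟩
  unfold srch
  rw [dif_pos h]
  exact hv

theorem LimC.srch {α : Type*} [Primcodable α] {c : α → ℕ → Option ℕ}
    (hc : Computable fun q : α × ℕ => c q.1 q.2) : LimC fun a => srch (c a) := by
  refine ⟨fun s a => firstU (c a) s, ?_, fun a => eventually_firstU (c a)⟩
  show Computable fun q : ℕ × α => firstU (c q.2) q.1
  exact computable_firstU (t := fun (q : ℕ × α) => c q.2)
    (hc.comp (Computable.pair (Computable.snd.comp Computable.fst) Computable.snd)) Computable.fst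

/-- Searching a nonempty string with a given property in a list. -/
def findL (P : List Bool → Bool) (L : List (List Bool)) : List Bool :=
  Nat.rec [] (fun j acc => bif acc.isEmpty && P (L.getD j []) then L.getD j [] else acc) L.length

theorem findL_spec (P : List Bool → Bool) (L : List (List Bool)) (hL : [] ∉ L) :
    (findL P L ∈ L ∧ P (findL P L) = true) ∨ (findL P L = [] ∧ ∀ ρ ∈ L, P ρ = false) := by
  have key : ∀ n ≤ L.length,
      let r : List Bool := Nat.rec [] (fun j acc =>
        bif acc.isEmpty && P (L.getD j []) then L.getD j [] else acc) n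
      (r ∈ L ∧ P r = true) ∨ (r = [] ∧ ∀ j < n, P (L.getD j []) = false) := by
    intro n
    induction n with
    | zero => intro _; exact Or.inr ⟨rfl, fun j hj => absurd hj (Nat.not_lt_zero j)⟩
    | succ n ih =>
      intro hn
      have ih := ih (Nat.le_of_succ_le hn)
      have hmem : L.getD n [] ∈ L := by
        rw [List.getD_eq_getElem _ _ (by omega)]
        exact List.getElem_mem _
      simp only at ih ⊢
      generalize (Nat.rec [] (fun j acc =>
        bif acc.isEmpty && P (L.getD j []) then L.getD j [] else acc) n : List Bool) = r at ih ⊢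
      rcases ih with ⟨h1, h2⟩ | ⟨h1, h2⟩
      · left
        have : r.isEmpty = false := by
          rw [List.isEmpty_eq_false_iff]
          rintro rfl
          exact hL h1
        rw [this]
        exact ⟨h1, h2⟩
      · subst h1
        rcases hP : P (L.getD n []) with _ | _
        · right
          refine ⟨rfl, fun j hj => ?_⟩
          rcases Nat.lt_succ_iff_lt_or_eq.1 hj with hj | rfl
          · exact h2 j hj
          · exact hP
        · left
          exact ⟨hmem, hP⟩
  rcases key L.length le_rfl with h | ⟨h1, h2⟩
  · exact Or.inl h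
  · refine Or.inr ⟨h1, fun ρ hρ => ?_⟩
    obtain ⟨j, hj, rfl⟩ := List.mem_iff_getElem.1 hρ
    have := h2 j hj
    rwa [List.getD_eq_getElem _ _ hj] at this

theorem LimC.findL {α : Type*} [Primcodable α] {P : α → List Bool → Bool}
    {L : α → List (List Bool)} (hP : LimC fun q : α × List Bool => P q.1 q.2)
    (hL : Computable L) : LimC fun a => findL (P a) (L a) := by
  have hlen : LimC fun a => (L a).length := LimC.of_computable (Primrec.list_length.to_comp.comp hL)
  have hget : Computable fun q : α × (ℕ × List Bool) => (L q.1).getD q.2.1 [] :=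
    (Primrec.list_getD []).to_comp.comp (hL.comp Computable.fst)
      (Computable.fst.comp Computable.snd)
  have hgetL : LimC fun q : α × (ℕ × List Bool) => (L q.1).getD q.2.1 [] :=
    LimC.of_computable hget
  have hemp : Primrec fun l : List Bool => l.isEmpty := by
    refine (Primrec.eq.decide.comp (Primrec.list_length) (Primrec.const 0)).of_eq fun l => ?_
    cases l <;> rfl
  have hstep : LimC fun q : α × (ℕ × List Bool) =>
      bif q.2.2.isEmpty && P q.1 ((L q.1).getD q.2.1 []) then (L q.1).getD q.2.1 [] else q.2.2 := by
    refine LimC.cond ?_ hgetL (LimC.of_computable (Computable.snd.comp Computable.snd))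
    have h1 : LimC fun q : α × (ℕ × List Bool) => q.2.2.isEmpty :=
      LimC.of_computable (hemp.to_comp.comp (Computable.snd.comp Computable.snd))
    have h2 : LimC fun q : α × (ℕ × List Bool) => P q.1 ((L q.1).getD q.2.1 []) :=
      LimC.comp₂ (f := fun q : α × List Bool => P q.1 q.2) hP
        (LimC.of_computable Computable.fst) hgetL
    exact LimC.comp₂ (f := fun q : Bool × Bool => q.1 && q.2)
      (LimC.of_computable Primrec.and.to_comp) h1 h2
  exact LimC.nat_rec hlen (LimC.of_computable (Computable.const [])) hstep

/-! ### the generic step -/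

/-- Search for an extension of `τ` in the `e`-th recursively enumerable set of strings. -/
def genSearch (q : List Bool × ℕ) (s : ℕ) : Option ℕ :=
  if (Code.evaln s.unpair.2 (Denumerable.ofNat Code q.2)
    (Encodable.encode (q.1 ++ str s.unpair.1))).isSome = true then some s.unpair.1 else none

theorem computable_genSearch : Computable fun r : (List Bool × ℕ) × ℕ => genSearch r.1 r.2 := by
  refine Primrec.to_comp ?_
  unfold genSearch
  have h1 : Primrec fun r : (List Bool × ℕ) × ℕ => r.2.unpair.1 :=
    Primrec.fst.comp (Primrec.unpair.comp Primrec.snd)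
  have h2 : Primrec fun r : (List Bool × ℕ) × ℕ => r.2.unpair.2 :=
    Primrec.snd.comp (Primrec.unpair.comp Primrec.snd)
  refine Primrec.ite (Primrec.eq.comp (Primrec.option_isSome.comp (Code.primrec_evaln.comp
    ((h2.pair ((Primrec.ofNat Code).comp (Primrec.snd.comp Primrec.fst))).pair
      (Primrec.encode.comp (Primrec.list_append.comp (Primrec.fst.comp Primrec.fst)
        (primrec_str.comp h1)))))) (Primrec.const true))
    (Primrec.option_some.comp h1) (Primrec.const none)

/-- The generic step. -/
noncomputable def stepG (q : List Bool × ℕ) : List Bool :=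
  q.1 ++ ((srch (genSearch q)).map str).getD []

theorem limC_stepG : LimC stepG := by
  unfold stepG
  have h1 : LimC fun q : List Bool × ℕ => srch (genSearch q) := LimC.srch computable_genSearch
  have h2 : Primrec fun r : List Bool × Option ℕ => r.1 ++ (r.2.map str).getD [] :=
    Primrec.list_append.comp Primrec.fst (Primrec.option_getD.comp
      (Primrec.option_map Primrec.snd (primrec_str.comp Primrec.snd).to₂) (Primrec.const []))
  exact LimC.comp₂ (f := fun r : List Bool × Option ℕ => r.1 ++ (r.2.map str).getD [])
    (LimC.of_computable h2.to_comp) (LimC.of_computable Computable.fst) h1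

theorem stepG_spec (τ : List Bool) (e : ℕ) :
    τ <+: stepG (τ, e) ∧ ((phi e (Encodable.encode (stepG (τ, e)))).Dom ∨
      ∀ ξ, ¬ (phi e (Encodable.encode (τ ++ ξ))).Dom) := by
  refine ⟨List.prefix_append _ _, ?_⟩
  by_cases h : ∃ s, (genSearch (τ, e) s).isSome = true
  · left
    obtain ⟨s, v, h1, h2⟩ := srch_some h
    unfold stepG
    rw [h2]
    unfold genSearch at h1
    split_ifs at h1 with h3
    cases h1
    obtain ⟨y, hy⟩ := Option.isSome_iff_exists.1 h3
    have := Code.evaln_sound (Option.mem_def.2 hy)
    exact Part.dom_iff_mem.2 ⟨y, this⟩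
  · right
    intro ξ hξ
    apply h
    obtain ⟨y, hy⟩ := Part.dom_iff_mem.1 hξ
    unfold phi at hy
    rw [Code.evaln_complete] at hy
    obtain ⟨k, hk⟩ := hy
    refine ⟨Nat.pair (Encodable.encode ξ) k, ?_⟩
    unfold genSearch
    simp only [Nat.unpair_pair, str_encode]
    rw [Option.mem_def.1 hk]
    rfl

/-! ### evidence -/

/-- The string for which a bit at position `p` may be evidence. -/
def rhoOf (p : ℕ) : List Bool := str p.unpair.1

/-- Position `p` of the string `τ` is evidence. -/
def evL (τ : List Bool) (p : ℕ) : Prop :=
  τ[p]? = some true ∧ (rhoOf p).length = (τ.take (p + 1)).count true + (rhoOf p).idxOf true + 5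

/-- `ρ` is a candidate for new evidence against learner number `i` after `τ`. -/
def Cand (q : List Bool × ℕ) (ρ : List Bool) : Prop :=
  ρ.idxOf true = q.2 ∧ ∀ p < q.1.length, evL q.1 p → ρ.take (rhoOf p).length ≠ rhoOf p

theorem primrec_count : Primrec fun l : List Bool => l.count true := by
  have h : PrimrecPred fun b : Bool => b = true := Primrec.eq.comp Primrec.id (Primrec.const true)
  refine (Primrec.list_length.comp (Primrec.listFilter h)).of_eq fun l => ?_
  rw [List.count_eq_length_filter]
  congr 1

theorem primrec_rhoOf : Primrec rhoOf := primrec_str.comp (Primrec.fst.comp Primrec.unpair)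

theorem primrec_cand : PrimrecPred fun r : (List Bool × ℕ) × List Bool => Cand r.1 r.2 := by
  have hev : PrimrecPred fun r : ℕ × ((List Bool × ℕ) × List Bool) => evL r.2.1.1 r.1 := by
    unfold evL
    refine PrimrecPred.and ?_ ?_
    · exact Primrec.eq.comp (Primrec.list_getElem?.comp
        (Primrec.fst.comp (Primrec.fst.comp Primrec.snd)) Primrec.fst) (Primrec.const (some true))
    · refine Primrec.eq.comp (Primrec.list_length.comp (primrec_rhoOf.comp Primrec.fst)) ?_
      refine Primrec.nat_add.comp (Primrec.nat_add.comp ?_ ?_) (Primrec.const 5)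
      · exact primrec_count.comp (Primrec.list_take.comp (Primrec.succ.comp Primrec.fst)
          (Primrec.fst.comp (Primrec.fst.comp Primrec.snd)))
      · exact Primrec.list_idxOf.comp (Primrec.const true) (primrec_rhoOf.comp Primrec.fst)
  have h1 : PrimrecRel fun (p : ℕ) (r : (List Bool × ℕ) × List Bool) =>
      ¬ (evL r.1.1 p ∧ r.2.take (rhoOf p).length = rhoOf p) := by
    show PrimrecPred fun r : ℕ × ((List Bool × ℕ) × List Bool) =>
      ¬ (evL r.2.1.1 r.1 ∧ r.2.2.take (rhoOf r.1).length = rhoOf r.1)
    refine PrimrecPred.not (PrimrecPred.and hev ?_)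
    exact Primrec.eq.comp (Primrec.list_take.comp (Primrec.list_length.comp
      (primrec_rhoOf.comp Primrec.fst)) (Primrec.snd.comp Primrec.snd))
      (primrec_rhoOf.comp Primrec.fst)
  have h2 : PrimrecPred fun r : (List Bool × ℕ) × List Bool =>
      ∀ p < r.1.1.length, evL r.1.1 p → r.2.take (rhoOf p).length ≠ rhoOf p := by
    refine (h1.forall_mem_list.comp (Primrec.list_range.comp (Primrec.list_length.comp
      (Primrec.fst.comp Primrec.fst))) Primrec.id).of_eq ?_
    intro r
    simp only [List.mem_range, id_eq, not_and, ne_eq]
  unfold Cand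
  exact PrimrecPred.and (Primrec.eq.comp (Primrec.list_idxOf.comp (Primrec.const true)
    Primrec.snd) (Primrec.snd.comp Primrec.fst)) h2

/-- The length of the candidates. -/
def lenC (q : List Bool × ℕ) : ℕ := q.1.count true + 1 + q.2 + 5

open Classical in
/-- The new evidence. -/
noncomputable def pick (q : List Bool × ℕ) : List Bool :=
  findL (fun ρ => decide (Cand q ρ) && !decide (Believe q.2 ρ)) (allStr (lenC q))

open Classical in
theorem limC_pick : LimC pick := by
  unfold pick
  refine LimC.findL (P := fun (q : List Bool × ℕ) ρ =>
    decide (Cand q ρ) && !decide (Believe q.2 ρ)) (L := fun q => allStr (lenC q)) ?_ ?_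
  · have h1 : LimC fun r : (List Bool × ℕ) × List Bool => decide (Cand r.1 r.2) := by
      refine LimC.of_computable (Primrec.to_comp ?_)
      exact primrec_cand.decide
    have h2 : LimC fun r : (List Bool × ℕ) × List Bool => decide (Believe r.1.2 r.2) := by
      have := LimC.of_rePred (rePred_comp rePred_believe
        (f := fun r : (List Bool × ℕ) × List Bool => (r.1.2, r.2))
        (Computable.pair (Computable.snd.comp Computable.fst) Computable.snd))
      exact this.of_eq fun r => by congr
    exact LimC.comp₂ (f := fun q : Bool × Bool => q.1 && !q.2)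
      (LimC.of_computable (Primrec.and.comp Primrec.fst (Primrec.not.comp Primrec.snd)).to_comp)
      h1 h2
  · refine Primrec.to_comp (primrec_allStr.comp ?_)
    exact Primrec.nat_add.comp (Primrec.nat_add.comp (Primrec.succ.comp
      (primrec_count.comp Primrec.fst)) Primrec.snd) (Primrec.const 5)

theorem nil_not_mem_allStr (q : List Bool × ℕ) : [] ∉ allStr (lenC q) := by
  rw [mem_allStr]
  simp [lenC]

theorem pick_spec (q : List Bool × ℕ) :
    ((pick q).length = lenC q ∧ Cand q (pick q) ∧ ¬ Believe q.2 (pick q)) ∨
    ∀ ρ, ρ.length = lenC q → Cand q ρ → Believe q.2 ρ := by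
  classical
  unfold pick
  rcases findL_spec (fun ρ => decide (Cand q ρ) && !decide (Believe q.2 ρ)) (allStr (lenC q))
    (nil_not_mem_allStr q) with ⟨h1, h2⟩ | ⟨_, h2⟩
  · left
    rw [mem_allStr] at h1
    rw [Bool.and_eq_true, decide_eq_true_eq, Bool.not_eq_true', decide_eq_false_iff_not] at h2
    exact ⟨h1, h2⟩
  · right
    intro ρ hρ hc
    have := h2 ρ (mem_allStr.2 hρ)
    by_contra hb
    simp [hc, hb] at this

/-- Placing evidence for `ρ` after `τ`. -/
def place (τ ρ : List Bool) : List Bool :=
  τ ++ List.replicate (Nat.pair (Encodable.encode ρ) τ.length - τ.length) false ++ [true]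

theorem primrec_place : Primrec₂ place := by
  unfold place
  refine Primrec.list_concat.comp (Primrec.list_append.comp Primrec.fst ?_) (Primrec.const true)
  have h1 : Primrec fun n : ℕ => List.replicate n false := by
    refine (Primrec.list_map Primrec.list_range (Primrec.const false).to₂).of_eq fun n => ?_
    simp [List.map_const']
  exact h1.comp (Primrec.nat_sub.comp (Primrec₂.natPair.comp (Primrec.encode.comp Primrec.snd)
    (Primrec.list_length.comp Primrec.fst)) (Primrec.list_length.comp Primrec.fst))

/-- The whole step. -/
noncomputable def step (q : List Bool × ℕ) : List Bool :=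
  place (stepG (q.1, q.2.unpair.1)) (pick (stepG (q.1, q.2.unpair.1), q.2.unpair.2))

theorem limC_step : LimC step := by
  unfold step
  have h1 : LimC fun q : List Bool × ℕ => stepG (q.1, q.2.unpair.1) :=
    limC_stepG.comp (LimC.of_computable (Computable.pair Computable.fst
      (Computable.fst.comp (Computable.unpair.comp Computable.snd))))
  have h2 : LimC fun q : List Bool × ℕ => pick (stepG (q.1, q.2.unpair.1), q.2.unpair.2) :=
    limC_pick.comp (h1.pair (LimC.of_computable
      (Computable.snd.comp (Computable.unpair.comp Computable.snd))))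
  exact LimC.comp₂ (f := fun r : List Bool × List Bool => place r.1 r.2)
    (LimC.of_computable primrec_place.to_comp) h1 h2

/-- The initial segments of the oracle. -/
noncomputable def tau (r : ℕ) : List Bool :=
  Nat.rec [] (fun r τ => step (τ, r)) r

theorem tau_succ (r : ℕ) : tau (r + 1) = step (tau r, r) := rfl

theorem limC_tau : LimC tau := by
  have h1 : LimC fun q : ℕ × (ℕ × List Bool) => step (q.2.2, q.2.1) :=
    limC_step.comp (LimC.of_computable (Computable.pair (Computable.snd.comp Computable.snd)
      (Computable.fst.comp Computable.snd)))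
  exact LimC.nat_rec (f := fun r : ℕ => r) (g := fun _ => ([] : List Bool))
    (h := fun q : ℕ × (ℕ × List Bool) => step (q.2.2, q.2.1))
    (LimC.of_computable Computable.id) (LimC.of_computable (Computable.const _)) h1

/-- The oracle. -/
noncomputable def orac (n : ℕ) : Bool := (tau (n + 1)).getD n false

theorem limitComputable_orac : LimitComputable orac := by
  have h1 : LimC fun n : ℕ => tau (n + 1) :=
    limC_tau.comp (LimC.of_computable Computable.succ)
  exact LimC.comp₂ (f := fun r : List Bool × ℕ => r.1.getD r.2 false)
    (LimC.of_computable (Primrec.list_getD false).to_comp) h1 (LimC.of_computable Computable.id)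

end Pool.Agent.EXLow
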