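import Pool.Agent.EXLow.Use
import Pool.Agent.EXLow.Tools

set_option autoImplicit false

namespace Pool.Agent.EXLow

open MeasureTheory Filter
open Nat.Partrec (Code)

/-! ### scanning a stream of optional values for conflicts -/

/-- One step of the scan. -/
def upd (acc : Option (Option ℕ)) (x : Option ℕ) : Option (Option ℕ) :=
  acc.bind fun o => Option.casesOn o (some x) fun v =>
    Option.casesOn x (some (some v)) fun v' => if v = v' then some (some v) else none

theorem primrec_upd : Primrec₂ upd := by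
  show Primrec fun p : Option (Option ℕ) × Option ℕ => upd p.1 p.2
  unfold upd
  refine Primrec.option_bind (f := fun p : Option (Option ℕ) × Option ℕ => p.1)
    (g := fun (p : Option (Option ℕ) × Option ℕ) (o : Option ℕ) =>
      (Option.casesOn o (some p.2) fun v =>
        Option.casesOn p.2 (some (some v)) fun v' => if v = v' then some (some v) else none :
          Option (Option ℕ))) Primrec.fst ?_
  show Primrec fun q : (Option (Option ℕ) × Option ℕ) × Option ℕ =>
      (Option.casesOn q.2 (some q.1.2) fun v =>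
        Option.casesOn q.1.2 (some (some v)) fun v' => if v = v' then some (some v) else none :
          Option (Option ℕ))
  refine Primrec.option_casesOn (o := fun q : (Option (Option ℕ) × Option ℕ) × Option ℕ => q.2)
    (f := fun q => some q.1.2)
    (g := fun (q : (Option (Option ℕ) × Option ℕ) × Option ℕ) (v : ℕ) =>
        (Option.casesOn q.1.2 (some (some v)) fun v' => if v = v' then some (some v) else none :
          Option (Option ℕ))) Primrec.snd
    (Primrec.option_some.comp (Primrec.snd.comp Primrec.fst)) ?_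
  show Primrec fun r : ((Option (Option ℕ) × Option ℕ) × Option ℕ) × ℕ =>
      (Option.casesOn r.1.1.2 (some (some r.2)) fun v' =>
        if r.2 = v' then some (some r.2) else none : Option (Option ℕ))
  refine Primrec.option_casesOn
    (o := fun r : ((Option (Option ℕ) × Option ℕ) × Option ℕ) × ℕ => r.1.1.2)
    (f := fun r => some (some r.2))
    (g := fun (r : ((Option (Option ℕ) × Option ℕ) × Option ℕ) × ℕ) (v' : ℕ) =>
      (if r.2 = v' then some (some r.2) else none : Option (Option ℕ)))
    (Primrec.snd.comp (Primrec.fst.comp Primrec.fst))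
    (Primrec.option_some.comp (Primrec.option_some.comp Primrec.snd)) ?_
  show Primrec fun r : (((Option (Option ℕ) × Option ℕ) × Option ℕ) × ℕ) × ℕ =>
      (if r.1.2 = r.2 then some (some r.1.2) else none : Option (Option ℕ))
  exact Primrec.ite (Primrec.eq.comp (Primrec.snd.comp Primrec.fst) Primrec.snd)
    (Primrec.option_some.comp (Primrec.option_some.comp (Primrec.snd.comp Primrec.fst)))
    (Primrec.const none)

/-- The scan of the first `N` values. -/
def scanU (u : ℕ → Option ℕ) (N : ℕ) : Option (Option ℕ) :=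
  Nat.rec (some none) (fun s acc => upd acc (u s)) N

theorem scanU_succ (u : ℕ → Option ℕ) (N : ℕ) : scanU u (N + 1) = upd (scanU u N) (u N) := rfl

theorem scanU_congr {u u' : ℕ → Option ℕ} {N : ℕ} (h : ∀ s < N, u s = u' s) :
    scanU u N = scanU u' N := by
  induction N with
  | zero => rfl
  | succ N ih =>
    rw [scanU_succ, scanU_succ, ih fun s hs => h s (Nat.lt_succ_of_lt hs), h N (Nat.lt_succ_self N)]

theorem scanU_spec (u : ℕ → Option ℕ) (N : ℕ) :
    (scanU u N = none ∧ ∃ s₁ < N, ∃ s₂ < N, ∃ v₁ v₂, u s₁ = some v₁ ∧ u s₂ = some v₂ ∧ v₁ ≠ v₂) ∨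
    (scanU u N = some none ∧ ∀ s < N, u s = none) ∨
    (∃ v, scanU u N = some (some v) ∧ (∃ s < N, u s = some v) ∧
      ∀ s < N, ∀ v', u s = some v' → v' = v) := by
  induction N with
  | zero => exact Or.inr (Or.inl ⟨rfl, fun s hs => absurd hs (Nat.not_lt_zero s)⟩)
  | succ N ih =>
    rw [scanU_succ]
    rcases ih with ⟨h, s₁, h1, s₂, h2, v₁, v₂, e1, e2, hne⟩ | ⟨h, hn⟩ | ⟨v, h, ⟨s, hs, hv⟩, hu⟩
    · left
      refine ⟨by rw [h]; rfl, s₁, by omega, s₂, by omega, v₁, v₂, e1, e2, hne⟩
    · rcases hN : u N with _ | v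
      · right; left
        refine ⟨by rw [h]; rfl, fun s hs => ?_⟩
        rcases Nat.lt_succ_iff_lt_or_eq.1 hs with hs | rfl
        · exact hn s hs
        · exact hN
      · right; right
        refine ⟨v, by rw [h]; rfl, ⟨N, Nat.lt_succ_self N, hN⟩, fun s hs v' hv' => ?_⟩
        rcases Nat.lt_succ_iff_lt_or_eq.1 hs with hs | rfl
        · rw [hn s hs] at hv'; cases hv'
        · rw [hN] at hv'; cases hv'; rfl
    · rcases hN : u N with _ | v'
      · right; right
        refine ⟨v, by rw [h]; rfl, ⟨s, by omega, hv⟩, fun s' hs' v' hv' => ?_⟩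
        rcases Nat.lt_succ_iff_lt_or_eq.1 hs' with hs' | rfl
        · exact hu s' hs' v' hv'
        · rw [hN] at hv'; cases hv'
      · by_cases hvv : v = v'
        · right; right
          subst hvv
          refine ⟨v, ?_, ⟨s, by omega, hv⟩, fun s' hs' v' hv' => ?_⟩
          · rw [h]
            show (if v = v then some (some v) else none) = _
            rw [if_pos rfl]
          · rcases Nat.lt_succ_iff_lt_or_eq.1 hs' with hs' | rfl
            · exact hu s' hs' v' hv'
            · rw [hN] at hv'; cases hv'; rfl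
        · left
          refine ⟨?_, s, by omega, N, by omega, v, v', hv, hN, hvv⟩
          rw [h]
          show (if v = v' then some (some v) else none) = _
          rw [if_neg hvv]

theorem scanU_conflict {u : ℕ → Option ℕ} {N s₁ s₂ v₁ v₂ : ℕ} (h1 : s₁ < N) (h2 : s₂ < N)
    (e1 : u s₁ = some v₁) (e2 : u s₂ = some v₂) (hne : v₁ ≠ v₂) : scanU u N = none := by
  rcases scanU_spec u N with ⟨h, _⟩ | ⟨_, hn⟩ | ⟨v, _, _, hu⟩
  · exact h
  · rw [hn _ h1] at e1; cases e1
  · exact absurd ((hu _ h1 _ e1).trans (hu _ h2 _ e2).symm) hne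

theorem scanU_value {u : ℕ → Option ℕ} {N s v : ℕ} (hs : s < N) (hv : u s = some v)
    (hc : ∀ s₁ s₂ v₁ v₂, u s₁ = some v₁ → u s₂ = some v₂ → v₁ = v₂) :
    scanU u N = some (some v) := by
  rcases scanU_spec u N with ⟨_, s₁, _, s₂, _, v₁, v₂, e1, e2, hne⟩ | ⟨_, hn⟩ | ⟨v', h, _, hu⟩
  · exact absurd (hc _ _ _ _ e1 e2) hne
  · rw [hn _ hs] at hv; cases hv
  · rw [h, hu _ hs _ hv]

/-- The first value of a stream. -/
def firstU (t : ℕ → Option ℕ) (N : ℕ) : Option ℕ :=
  Nat.rec none (fun p acc => acc <|> t p) N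

theorem firstU_succ (t : ℕ → Option ℕ) (N : ℕ) : firstU t (N + 1) = (firstU t N <|> t N) := rfl

theorem firstU_none {t : ℕ → Option ℕ} {N : ℕ} (h : ∀ p < N, t p = none) : firstU t N = none := by
  induction N with
  | zero => rfl
  | succ N ih =>
    rw [firstU_succ, ih fun p hp => h p (Nat.lt_succ_of_lt hp), h N (Nat.lt_succ_self N)]
    rfl

theorem firstU_some {t : ℕ → Option ℕ} {N p v : ℕ} (hp : p < N) (h : ∀ q < p, t q = none)
    (hv : t p = some v) : firstU t N = some v := by
  induction N with
  | zero => exact absurd hp (Nat.not_lt_zero p)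
  | succ N ih =>
    rw [firstU_succ]
    rcases Nat.lt_succ_iff_lt_or_eq.1 hp with hp | rfl
    · rw [ih hp]; rfl
    · rw [firstU_none h, hv]; rfl

/-- The guess at the first `k` bits of the oracle. -/
def guess (g : ℕ → ℕ → Bool) (N k : ℕ) : List Bool :=
  Nat.rec [] (fun j acc => acc ++ [g N j]) k

theorem guess_eq {g : ℕ → ℕ → Bool} {A : ℕ → Bool} {N k : ℕ} (h : ∀ j < k, g N j = A j) :
    guess g N k = pre A k := by
  induction k with
  | zero => rfl
  | succ k ih =>
    rw [pre_succ, ← ih fun j hj => h j (Nat.lt_succ_of_lt hj), ← h k (Nat.lt_succ_self k)]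
    rfl

theorem computable_guess {g : ℕ → ℕ → Bool} (hg : Computable₂ g) : Computable₂ (guess g) := by
  show Computable fun p : ℕ × ℕ => guess g p.1 p.2
  refine Computable.nat_rec (f := fun p : ℕ × ℕ => p.2) (g := fun _ => ([] : List Bool))
    (h := fun (p : ℕ × ℕ) (q : ℕ × List Bool) => q.2 ++ [g p.1 q.1]) Computable.snd
    (Computable.const _) ?_
  show Computable fun r : (ℕ × ℕ) × (ℕ × List Bool) => r.2.2 ++ [g r.1.1 r.2.1]
  exact Primrec.list_concat.to_comp.comp (Computable.snd.comp Computable.snd)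
    (hg.comp (Computable.fst.comp Computable.fst) (Computable.fst.comp Computable.snd))

/-- The string coded by a natural number. -/
def str (n : ℕ) : List Bool := (Encodable.decode n : Option (List Bool)).getD []

theorem str_encode (ξ : List Bool) : str (Encodable.encode ξ) = ξ := by
  simp [str]

theorem primrec_str : Primrec str :=
  Primrec.option_getD.comp Primrec.decode (Primrec.const [])

/-- The `s`-th value seen, for the guess `τ` and the threshold `n₀`, along the string `ξ`. -/
def wval (c : Code) (τ : List Bool) (n₀ : ℕ) (ξ : List Bool) (s : ℕ) : Option ℕ :=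
  if n₀ ≤ s.unpair.2.unpair.1 then
    Code.evaln s.unpair.2.unpair.2 c (Encodable.encode
      (τ ++ str s.unpair.1,
        Encodable.encode (ξ.take s.unpair.2.unpair.1)))
  else none

theorem primrec_wval (c : Code) :
    Primrec fun p : (List Bool × ℕ × List Bool) × ℕ => wval c p.1.1 p.1.2.1 p.1.2.2 p.2 := by
  unfold wval
  have hm : Primrec fun p : (List Bool × ℕ × List Bool) × ℕ => p.2.unpair.2.unpair.1 :=
    Primrec.fst.comp (Primrec.unpair.comp (Primrec.snd.comp (Primrec.unpair.comp Primrec.snd)))
  have ht : Primrec fun p : (List Bool × ℕ × List Bool) × ℕ => p.2.unpair.2.unpair.2 :=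
    Primrec.snd.comp (Primrec.unpair.comp (Primrec.snd.comp (Primrec.unpair.comp Primrec.snd)))
  have hs : Primrec fun p : (List Bool × ℕ × List Bool) × ℕ => p.2.unpair.1 :=
    Primrec.fst.comp (Primrec.unpair.comp Primrec.snd)
  refine Primrec.ite (Primrec.nat_le.comp
    (Primrec.fst.comp (Primrec.snd.comp Primrec.fst)) hm) ?_ (Primrec.const none)
  refine Code.primrec_evaln.comp ((ht.pair (Primrec.const c)).pair (Primrec.encode.comp
    (Primrec.pair (Primrec.list_append.comp (Primrec.fst.comp Primrec.fst)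
      (primrec_str.comp hs)) (Primrec.encode.comp
        (Primrec.list_take.comp hm (Primrec.snd.comp (Primrec.snd.comp Primrec.fst)))))))

theorem primrec_scan (c : Code) :
    Primrec fun p : (List Bool × ℕ × List Bool) × ℕ =>
      scanU (wval c p.1.1 p.1.2.1 p.1.2.2) p.2 := by
  refine Primrec.nat_rec' (f := fun p : (List Bool × ℕ × List Bool) × ℕ => p.2)
    (g := fun _ => (some none : Option (Option ℕ)))
    (h := fun (p : (List Bool × ℕ × List Bool) × ℕ) (q : ℕ × Option (Option ℕ)) =>
      upd q.2 (wval c p.1.1 p.1.2.1 p.1.2.2 q.1)) Primrec.snd (Primrec.const _) ?_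
  show Primrec fun r : ((List Bool × ℕ × List Bool) × ℕ) × (ℕ × Option (Option ℕ)) =>
      upd r.2.2 (wval c r.1.1.1 r.1.1.2.1 r.1.1.2.2 r.2.1)
  refine primrec_upd.comp (Primrec.snd.comp Primrec.snd) ?_
  exact (primrec_wval c).comp
    (Primrec.pair (Primrec.fst.comp Primrec.fst) (Primrec.fst.comp Primrec.snd))

/-- The output for the candidate `p`. -/
def cand (c : Code) (g : ℕ → ℕ → Bool) (ξ : List Bool) (p : ℕ) : Option ℕ :=
  (scanU (wval c (guess g ξ.length p.unpair.1) p.unpair.2 ξ) ξ.length).map fun o => o.getD 0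

/-- The computable learner. -/
def learner (c : Code) (g : ℕ → ℕ → Bool) (ξ : List Bool) : ℕ :=
  (firstU (cand c g ξ) ξ.length).getD 0

theorem computable_firstU {α : Type*} [Primcodable α] {t : α → ℕ → Option ℕ}
    (ht : Computable fun q : α × ℕ => t q.1 q.2) {n : α → ℕ} (hn : Computable n) :
    Computable fun a => firstU (t a) (n a) := by
  refine (Computable.nat_rec (f := n)
      (g := fun _ => (Option.none : Option ℕ))
      (h := fun (a : α) (q : ℕ × Option ℕ) => (q.2 <|> t a q.1))
      hn (Computable.const _) ?_).of_eq fun a => rfl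
  have h2 : Computable fun r : α × (ℕ × Option ℕ) => t r.1 r.2.1 :=
    ht.comp (Computable.pair Computable.fst (Computable.fst.comp Computable.snd))
  exact (Primrec.option_orElse.to_comp.comp (Computable.snd.comp Computable.snd) h2).to₂

theorem computable_learner (c : Code) {g : ℕ → ℕ → Bool} (hg : Computable₂ g) :
    Computable (learner c g) := by
  have h1 : Computable fun q : List Bool × ℕ => cand c g q.1 q.2 := by
    unfold cand
    have hguess : Computable fun q : List Bool × ℕ => guess g q.1.length q.2.unpair.1 :=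
      (computable_guess hg).comp (Primrec.list_length.to_comp.comp Computable.fst)
        (Computable.fst.comp (Computable.unpair.comp Computable.snd))
    have hscan : Computable fun q : List Bool × ℕ =>
        scanU (wval c (guess g q.1.length q.2.unpair.1) q.2.unpair.2 q.1) q.1.length :=
      (primrec_scan c).to_comp.comp (Computable.pair (Computable.pair hguess
        (Computable.pair (Computable.snd.comp (Computable.unpair.comp Computable.snd))
          Computable.fst)) (Primrec.list_length.to_comp.comp Computable.fst))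
    have hget : Primrec₂ fun (_ : List Bool × ℕ) (o : Option ℕ) => o.getD 0 :=
      (Primrec.option_getD.comp Primrec.snd (Primrec.const 0)).to₂
    exact Computable.option_map hscan hget.to_comp
  have h2 : Computable fun ξ : List Bool => firstU (cand c g ξ) ξ.length :=
    computable_firstU h1 Primrec.list_length.to_comp
  exact (Primrec.option_getD.to_comp).comp h2 (Computable.const 0)

theorem computable_of_realIndex {e : ℕ} {Z : ℕ → Bool} (h : RealIndex e Z) : Computable Z := by
  have h1 : Nat.Partrec (phi e) := Code.exists_code.2 ⟨_, rfl⟩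
  have h2 : Partrec fun n : ℕ => (Part.some (Z n).toNat : Part ℕ) := by
    have : phi e = fun n : ℕ => (Part.some (Z n).toNat : Part ℕ) := funext h
    rw [← this]
    exact Partrec.nat_iff.2 h1
  have h3 : Computable fun n : ℕ => (Z n).toNat := h2
  have h4 : Computable fun n : ℕ => decide ((Z n).toNat = 1) :=
    (Primrec.eq.decide.to_comp).comp h3 (Computable.const 1)
  refine h4.of_eq fun n => ?_
  cases Z n <;> rfl

theorem computable_pre {Z : ℕ → Bool} (hZ : Computable Z) : Computable (pre Z) := by
  refine (Computable.nat_rec (f := fun n : ℕ => n) (g := fun _ => ([] : List Bool))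
    (h := fun (_ : ℕ) (q : ℕ × List Bool) => q.2 ++ [Z q.1]) Computable.id
    (Computable.const _) ?_).of_eq fun n => ?_
  · exact Primrec.list_concat.to_comp.comp (Computable.snd.comp Computable.snd)
      (hZ.comp (Computable.fst.comp Computable.snd))
  · induction n with
    | zero => rfl
    | succ n ih => rw [pre_succ, ← ih]

theorem lowReals_of_generic {A : ℕ → Bool} (hG : OneGeneric A) (hA : LimitComputable A) :
    LowReals A := by
  intro C hC hL
  obtain ⟨L, hL, hLC⟩ := hL
  obtain ⟨g, hg, hgA⟩ := hA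
  obtain ⟨F, pF, mF, eF⟩ := use_principle hL
  obtain ⟨c, hc⟩ := Code.exists_code.1 pF
  have hc' : ∀ (σ : List Bool) (x : ℕ), c.eval (Encodable.encode (σ, x)) = F σ x := by
    intro σ x
    rw [hc]
    simp only [Encodable.encodek, Part.coe_some, Part.bind_some]
    exact Part.map_id' (fun _ => rfl) _
  have hLF : ∀ (ξ : List Bool) (v : ℕ), v = L ξ ↔ ∃ n, v ∈ F (pre A n) (Encodable.encode ξ) := by
    intro ξ v
    rw [← eF]
    simp only [Encodable.encodek, Part.coe_some, Part.bind_some, Part.map_some, Part.mem_some_iff]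
    exact Iff.rfl
  refine ⟨learner c g, computable_learner c hg, ?_⟩
  intro Z hZ
  obtain ⟨e, he, hind⟩ := hLC Z hZ
  refine ⟨e, ?_, hind⟩
  obtain ⟨n₀, hn₀⟩ := eventually_atTop.1 he
  -- values along `Z`
  let wZ : ℕ → ℕ → ℕ → Option ℕ := fun k m₀ s => wval c (pre A k) m₀ (pre Z (s + 1)) s
  have hw : ∀ k m₀ N s, s < N → wval c (pre A k) m₀ (pre Z N) s = wZ k m₀ s := by
    intro k m₀ N s hs
    have hm : s.unpair.2.unpair.1 ≤ s :=
      (Nat.unpair_left_le _).trans (Nat.unpair_right_le _)
    simp only [wZ, wval]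
    rw [take_pre Z (by omega : s.unpair.2.unpair.1 ≤ N),
      take_pre Z (by omega : s.unpair.2.unpair.1 ≤ s + 1)]
  have hwZ : ∀ k m₀ s v, wZ k m₀ s = some v →
      ∃ ξ m, m₀ ≤ m ∧ v ∈ F (pre A k ++ ξ) (Encodable.encode (pre Z m)) := by
    intro k m₀ s v hv
    simp only [wZ, wval] at hv
    split_ifs at hv with h
    have hm : s.unpair.2.unpair.1 ≤ s :=
      (Nat.unpair_left_le _).trans (Nat.unpair_right_le _)
    rw [take_pre Z (by omega : s.unpair.2.unpair.1 ≤ s + 1)] at hv
    refine ⟨str s.unpair.1, s.unpair.2.unpair.1, h, ?_⟩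
    rw [← hc']
    exact Code.evaln_sound hv
  have hwZ' : ∀ k m₀ ξ m v, m₀ ≤ m → v ∈ F (pre A k ++ ξ) (Encodable.encode (pre Z m)) →
      ∃ s, wZ k m₀ s = some v := by
    intro k m₀ ξ m v hm hv
    rw [← hc', Code.evaln_complete] at hv
    obtain ⟨t, ht⟩ := hv
    refine ⟨Nat.pair (Encodable.encode ξ) (Nat.pair m t), ?_⟩
    simp only [wZ, wval, Nat.unpair_pair, str_encode]
    rw [if_pos hm, take_pre Z]
    · exact ht
    · have := Nat.right_le_pair (Encodable.encode ξ) (Nat.pair m t)
      have := Nat.left_le_pair m t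
      omega
  -- a consistent candidate exists
  have hex : ∃ p : ℕ, ∀ s₁ s₂ v₁ v₂, wZ p.unpair.1 p.unpair.2 s₁ = some v₁ →
      wZ p.unpair.1 p.unpair.2 s₂ = some v₂ → v₁ = v₂ := by
    have hre : REPred fun σ : List Bool =>
        ∃ m v, n₀ ≤ m ∧ v ≠ e ∧ v ∈ F σ (Encodable.encode (pre Z m)) := by
      have hpZ := computable_pre (computable_of_realIndex (hind : RealIndex e Z))
      have h1 : Partrec fun q : List Bool × ℕ => F q.1 (Encodable.encode (pre Z q.2)) :=
        pF.comp Computable.fst (Computable.encode.comp (hpZ.comp Computable.snd))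
      have h2 := rePred_mem h1
      have h3 : REPred fun q : (List Bool × ℕ) × ℕ =>
          (decide (n₀ ≤ q.1.2) && !decide (q.2 = e)) = true := by
        refine rePred_of_computable (Primrec.to_comp ?_)
        exact Primrec.and.comp (Primrec.nat_le.decide.comp (Primrec.const n₀)
          (Primrec.snd.comp Primrec.fst)) (Primrec.not.comp
            (Primrec.eq.decide.comp Primrec.snd (Primrec.const e)))
      refine (rePred_exists (rePred_exists (rePred_and h3 h2))).of_eq fun σ => ?_
      refine exists_congr fun m => exists_congr fun v => ?_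
      simp [and_assoc]
    obtain ⟨k, hk⟩ := hG _ hre
    have hk' : ∀ ξ, ¬ ∃ m v, n₀ ≤ m ∧ v ≠ e ∧
        v ∈ F (pre A k ++ ξ) (Encodable.encode (pre Z m)) := by
      rcases hk with ⟨m, v, hm, hne, hv⟩ | h
      · exfalso
        apply hne
        rw [(hLF (pre Z m) v).2 ⟨k, hv⟩]
        exact hn₀ m hm
      · exact h
    have key : ∀ s v, wZ k n₀ s = some v → v = e := by
      intro s v hv
      obtain ⟨ξ, m, hm, hv⟩ := hwZ _ _ _ _ hv
      by_contra hne
      exact hk' ξ ⟨m, v, hm, hne, hv⟩
    refine ⟨Nat.pair k n₀, fun s₁ s₂ v₁ v₂ h1 h2 => ?_⟩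
    rw [Nat.unpair_pair] at h1 h2
    exact (key _ _ h1).trans (key _ _ h2).symm
  classical
  obtain ⟨p, hp, hmin⟩ : ∃ p : ℕ, (∀ s₁ s₂ v₁ v₂, wZ p.unpair.1 p.unpair.2 s₁ = some v₁ →
      wZ p.unpair.1 p.unpair.2 s₂ = some v₂ → v₁ = v₂) ∧ ∀ q < p,
      ¬ (∀ s₁ s₂ v₁ v₂, wZ q.unpair.1 q.unpair.2 s₁ = some v₁ →
      wZ q.unpair.1 q.unpair.2 s₂ = some v₂ → v₁ = v₂) :=
    ⟨Nat.find hex, Nat.find_spec hex, fun q hq => Nat.find_min hex hq⟩
  -- the value found is `e`
  obtain ⟨s, hs⟩ : ∃ s, wZ p.unpair.1 p.unpair.2 s = some e := by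
    set m := max p.unpair.2 n₀ with hm
    obtain ⟨n, hn⟩ := (hLF (pre Z m) e).1 (hn₀ m (le_max_right _ _)).symm
    have hn' := mF _ _ _ _ (pre_mono A (le_max_right p.unpair.1 n)) hn
    obtain ⟨d, hd⟩ := Nat.exists_eq_add_of_le (le_max_left p.unpair.1 n)
    obtain ⟨ξ, hξ⟩ := pre_add A p.unpair.1 d
    rw [hd, hξ] at hn'
    exact hwZ' _ _ ξ m e (le_max_left _ _) hn'
  -- the guesses are eventually right
  have hguess : ∀ k, ∀ᶠ N in atTop, guess g N k = pre A k := by
    intro k
    have : ∀ᶠ N in atTop, ∀ j ∈ Finset.range k, g N j = A j :=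
      (Finset.eventually_all (Finset.range k)).2 fun j _ => hgA j
    filter_upwards [this] with N hN
    exact guess_eq fun j hj => hN j (Finset.mem_range.2 hj)
  have hcand_p : ∀ᶠ N in atTop, cand c g (pre Z N) p = some e := by
    filter_upwards [hguess p.unpair.1, eventually_gt_atTop s] with N hN hsN
    unfold cand
    rw [pre_length, hN, scanU_congr (fun s hs => hw _ _ _ _ hs), scanU_value hsN hs hp]
    rfl
  have hcand_q : ∀ᶠ N in atTop, ∀ q ∈ Finset.range p, cand c g (pre Z N) q = none := by
    refine (Finset.eventually_all (Finset.range p)).2 fun q hq => ?_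
    have hc := hmin q (Finset.mem_range.1 hq)
    push Not at hc
    obtain ⟨s₁, s₂, v₁, v₂, h1, h2, hne⟩ := hc
    filter_upwards [hguess q.unpair.1, eventually_gt_atTop s₁, eventually_gt_atTop s₂]
      with N hN hs1 hs2
    unfold cand
    rw [pre_length, hN, scanU_congr (fun s hs => hw _ _ _ _ hs), scanU_conflict hs1 hs2 h1 h2 hne]
    rfl
  filter_upwards [hcand_p, hcand_q, eventually_gt_atTop p] with N h1 h2 hN
  unfold learner
  rw [pre_length, firstU_some hN (fun q hq => h2 q (Finset.mem_range.2 hq)) h1]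
  rfl

end Pool.Agent.EXLow
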