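import Pool.Agent.EXLow.Coin
import Pool.Agent.EXLow.LowR

set_option autoImplicit false

namespace Pool.Agent.EXLow

open MeasureTheory Filter
open Nat.Partrec (Code)
open scoped ENNReal

/-- Numerator of the dyadic approximation of precision `k` of the measure of `[σ]` for the uniform
measure on `[ρ]`. -/
def valC (ρ σ : List Bool) (k : ℕ) : ℕ :=
  if ρ.take σ.length = σ then 2 ^ k
  else if σ.take ρ.length = ρ then
    (if σ.length - ρ.length ≤ k then 2 ^ (k - (σ.length - ρ.length)) else 0)
  else 0

theorem primrec_pow2 : Primrec fun n : ℕ => 2 ^ n := by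
  refine (Primrec.nat_rec₁ 1 (f := fun _ r => r * 2)
    (Primrec.nat_mul.comp Primrec.snd (Primrec.const 2)).to₂).of_eq fun n => ?_
  induction n with
  | zero => rfl
  | succ n ih => rw [pow_succ, ← ih]

theorem primrec_valC : Primrec fun q : List Bool × (List Bool × ℕ) => valC q.1 q.2.1 q.2.2 := by
  unfold valC
  have hρ : Primrec fun q : List Bool × (List Bool × ℕ) => q.1 := Primrec.fst
  have hσ : Primrec fun q : List Bool × (List Bool × ℕ) => q.2.1 := Primrec.fst.comp Primrec.snd
  have hk : Primrec fun q : List Bool × (List Bool × ℕ) => q.2.2 := Primrec.snd.comp Primrec.snd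
  have hd : Primrec fun q : List Bool × (List Bool × ℕ) => q.2.1.length - q.1.length :=
    Primrec.nat_sub.comp (Primrec.list_length.comp hσ) (Primrec.list_length.comp hρ)
  refine Primrec.ite (Primrec.eq.comp (Primrec.list_take.comp (Primrec.list_length.comp hσ) hρ) hσ)
    (primrec_pow2.comp hk) ?_
  refine Primrec.ite (Primrec.eq.comp (Primrec.list_take.comp (Primrec.list_length.comp hρ) hσ) hρ)
    ?_ (Primrec.const 0)
  exact Primrec.ite (Primrec.nat_le.comp hd hk) (primrec_pow2.comp (Primrec.nat_sub.comp hk hd))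
    (Primrec.const 0)

theorem valC_spec (ρ σ : List Bool) (k : ℕ) :
    |(lamC ρ (cyl σ)).toReal - (valC ρ σ k : ℝ) / 2 ^ k| ≤ 1 / 2 ^ k := by
  have hpos : (0 : ℝ) < 2 ^ k := by positivity
  unfold valC
  split_ifs with h1 h2 h3
  · have : σ <+: ρ := by rw [List.prefix_iff_eq_take]; exact h1.symm
    rw [lamC_of_prefix' this]
    push_cast
    rw [div_self hpos.ne', ENNReal.toReal_one, sub_self, abs_zero]
    positivity
  · have : ρ <+: σ := by rw [List.prefix_iff_eq_take]; exact h2.symm
    rw [lamC_of_prefix this]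
    have e1 : (((1 / 2 : ℝ≥0∞)) ^ (σ.length - ρ.length)).toReal =
        (1 / 2 : ℝ) ^ (σ.length - ρ.length) := by
      rw [ENNReal.toReal_pow]; simp
    rw [e1]
    push_cast
    have e2 : (2 : ℝ) ^ (k - (σ.length - ρ.length)) / 2 ^ k =
        (1 / 2) ^ (σ.length - ρ.length) := by
      rw [div_eq_iff hpos.ne']
      obtain ⟨d, hd⟩ := Nat.exists_eq_add_of_le h3
      rw [hd, Nat.add_sub_cancel_left, pow_add, ← mul_assoc, ← mul_pow]
      norm_num
    rw [e2, sub_self, abs_zero]
    positivity
  · have : ρ <+: σ := by rw [List.prefix_iff_eq_take]; exact h2.symm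
    rw [lamC_of_prefix this]
    have e1 : (((1 / 2 : ℝ≥0∞)) ^ (σ.length - ρ.length)).toReal =
        (1 / 2 : ℝ) ^ (σ.length - ρ.length) := by
      rw [ENNReal.toReal_pow]; simp
    rw [e1]
    simp only [Nat.cast_zero, zero_div, sub_zero]
    rw [abs_of_nonneg (by positivity), ← one_div_pow]
    exact pow_le_pow_of_le_one (by norm_num) (by norm_num) (by omega)
  · have h1' : ¬ σ <+: ρ := by rw [List.prefix_iff_eq_take]; exact fun h => h1 h.symm
    have h2' : ¬ ρ <+: σ := by rw [List.prefix_iff_eq_take]; exact fun h => h2 h.symm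
    rw [lamC_of_not h2' h1']
    simp

/-- A uniform index of the measures `lamC ρ`. -/
theorem exists_index : ∃ idx : List Bool → ℕ, Computable idx ∧ ∀ ρ, MeasIndex (idx ρ) (lamC ρ) := by
  have h1 : Computable fun x : ℕ => valC (str x.unpair.1)
      ((Encodable.decode x.unpair.2 : Option (List Bool × ℕ)).getD ([], 0)).1
      ((Encodable.decode x.unpair.2 : Option (List Bool × ℕ)).getD ([], 0)).2 := by
    refine Primrec.to_comp ?_
    have h2 : Primrec fun x : ℕ =>
        (Encodable.decode x.unpair.2 : Option (List Bool × ℕ)).getD ([], 0) :=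
      Primrec.option_getD.comp (Primrec.decode.comp (Primrec.snd.comp Primrec.unpair))
        (Primrec.const _)
    exact primrec_valC.comp (Primrec.pair (primrec_str.comp (Primrec.fst.comp Primrec.unpair)) h2)
  obtain ⟨c, hc⟩ := Code.exists_code.1 (Partrec.nat_iff.1 h1.partrec)
  refine ⟨fun ρ => Encodable.encode (Code.curry c (Encodable.encode ρ)), ?_, ?_⟩
  · exact (Primrec.encode.comp (Code.primrec₂_curry.comp (Primrec.const c)
      Primrec.encode)).to_comp
  · intro ρ σ k
    refine ⟨valC ρ σ k, ?_, valC_spec ρ σ k⟩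
    unfold phi
    rw [Denumerable.ofNat_encode, Code.eval_curry, hc]
    simp [str_encode]

end Pool.Agent.EXLow
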