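import Pool.Agent.EXLow.Gen

set_option autoImplicit false

namespace Pool.Agent.EXLow

open MeasureTheory Filter
open Nat.Partrec (Code)
open scoped ENNReal

/-! ### the oracle extends its approximations -/

theorem le_pair_encode (ρ τ : List Bool) :
    τ.length ≤ Nat.pair (Encodable.encode ρ) τ.length := Nat.right_le_pair _ _

theorem place_length (τ ρ : List Bool) :
    (place τ ρ).length = Nat.pair (Encodable.encode ρ) τ.length + 1 := by
  have := le_pair_encode ρ τ
  simp [place]
  omega

theorem prefix_place (τ ρ : List Bool) : τ <+: place τ ρ := by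
  unfold place
  rw [List.append_assoc]
  exact List.prefix_append _ _

theorem place_count (τ ρ : List Bool) : (place τ ρ).count true = τ.count true + 1 := by
  simp [place, List.count_append, List.count_replicate]

theorem stepG_tau (r : ℕ) : tau r <+: stepG (tau r, r.unpair.1) := (stepG_spec _ _).1

theorem tau_mono_succ (r : ℕ) : tau r <+: tau (r + 1) := by
  rw [tau_succ]
  exact (stepG_tau r).trans (prefix_place _ _)

theorem tau_mono {r s : ℕ} (h : r ≤ s) : tau r <+: tau s := by
  induction s, h using Nat.le_induction with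
  | base => exact List.prefix_refl _
  | succ s _ ih => exact ih.trans (tau_mono_succ s)

theorem le_tau_length (r : ℕ) : r ≤ (tau r).length := by
  induction r with
  | zero => exact Nat.zero_le _
  | succ r ih =>
    rw [tau_succ]
    have h1 : (tau r).length ≤ (stepG (tau r, r.unpair.1)).length := (stepG_tau r).length_le
    show r + 1 ≤ (place (stepG (tau r, r.unpair.1))
      (pick (stepG (tau r, r.unpair.1), r.unpair.2))).length
    rw [place_length]
    have := le_pair_encode (pick (stepG (tau r, r.unpair.1), r.unpair.2))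
      (stepG (tau r, r.unpair.1))
    omega

theorem le_tau_count (r : ℕ) : r ≤ (tau r).count true := by
  induction r with
  | zero => exact Nat.zero_le _
  | succ r ih =>
    rw [tau_succ]
    have h1 : (tau r).count true ≤ (stepG (tau r, r.unpair.1)).count true :=
      (stepG_tau r).sublist.count_le true
    unfold step
    rw [place_count]
    simp only at h1 ⊢
    omega

theorem pre_tau (r : ℕ) : pre orac (tau r).length = tau r := by
  apply List.ext_getElem?
  intro n
  rw [pre_getElem?]
  split_ifs with h
  · unfold orac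
    have h1 : n < (tau (n + 1)).length := lt_of_lt_of_le (Nat.lt_succ_self n) (le_tau_length _)
    rw [List.getD_eq_getElem _ _ h1, List.getElem?_eq_getElem h]
    congr 1
    rcases le_total r (n + 1) with hr | hr
    · exact ((tau_mono hr).getElem h).symm
    · exact (tau_mono hr).getElem h1
  · rw [List.getElem?_eq_none (not_lt.1 h)]

theorem pre_of_prefix {τ : List Bool} {r : ℕ} (h : τ <+: tau r) : pre orac τ.length = τ := by
  have h1 := take_pre orac h.length_le
  rw [pre_tau] at h1
  rw [← h1]
  rw [List.prefix_iff_eq_take] at h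
  exact h.symm

theorem oneGeneric_orac : OneGeneric orac := by
  intro W hW
  obtain ⟨c, hc⟩ := Code.exists_code.1 hW
  have hW' : ∀ σ, W σ ↔ (phi (Encodable.encode c) (Encodable.encode σ)).Dom := by
    intro σ
    unfold phi
    rw [Denumerable.ofNat_encode, hc]
    simp [Part.assert, Part.bind]
  set r := Nat.pair (Encodable.encode c) 0 with hr
  have hr1 : r.unpair.1 = Encodable.encode c := by rw [hr, Nat.unpair_pair]
  obtain ⟨h1, h2⟩ := stepG_spec (tau r) r.unpair.1
  rw [hr1] at h2
  rcases h2 with h2 | h2
  · have h3 : stepG (tau r, r.unpair.1) <+: tau (r + 1) := by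
      rw [tau_succ]
      exact prefix_place _ _
    refine ⟨(stepG (tau r, r.unpair.1)).length, Or.inl ?_⟩
    rw [pre_of_prefix h3, hW', hr1]
    exact h2
  · refine ⟨(tau r).length, Or.inr fun ξ => ?_⟩
    rw [pre_tau, hW']
    exact h2 ξ

/-! ### evidence in a real -/

/-- The real `A` has at position `p` evidence for `ρ`. -/
def Ev (A : ℕ → Bool) (p : ℕ) (ρ : List Bool) : Prop :=
  A p = true ∧ rhoOf p = ρ ∧ ρ.length = (pre A (p + 1)).count true + ρ.idxOf true + 5

theorem evL_pre {A : ℕ → Bool} {n p : ℕ} (h : p < n) :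
    evL (pre A n) p ↔ Ev A p (rhoOf p) := by
  unfold evL Ev
  rw [pre_getElem?, if_pos h, take_pre A h]
  simp

theorem Ev.idx_lt {A : ℕ → Bool} {p : ℕ} {ρ : List Bool} (h : Ev A p ρ) :
    ρ.idxOf true < ρ.length := by
  have := h.2.2
  omega

theorem idxOf_prefix {ρ ρ' : List Bool} (h : ρ <+: ρ') (hlt : ρ.idxOf true < ρ.length) :
    ρ'.idxOf true = ρ.idxOf true := by
  obtain ⟨ξ, rfl⟩ := h
  exact List.idxOf_append_of_mem (List.idxOf_lt_length_iff.1 hlt)

/-- The evidence placed by the construction is not preceded by shorter evidence. -/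
theorem pick_unshadowed (r : ℕ)
    (hlen : (pick (stepG (tau r, r.unpair.1), r.unpair.2)).length =
      lenC (stepG (tau r, r.unpair.1), r.unpair.2))
    (hc : Cand (stepG (tau r, r.unpair.1), r.unpair.2)
      (pick (stepG (tau r, r.unpair.1), r.unpair.2))) :
    ∃ p, Ev orac p (pick (stepG (tau r, r.unpair.1), r.unpair.2)) ∧
      ∀ p' ρ', Ev orac p' ρ' → ρ' <+: pick (stepG (tau r, r.unpair.1), r.unpair.2) →
        ρ' = pick (stepG (tau r, r.unpair.1), r.unpair.2) := by
  set τ := stepG (tau r, r.unpair.1) with hτ
  set ρ := pick (τ, r.unpair.2) with hρ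
  have hstep : tau (r + 1) = place τ ρ := by rw [tau_succ]; rfl
  have hτp : τ <+: tau (r + 1) := by rw [hstep]; exact prefix_place _ _
  have hpre : pre orac τ.length = τ := pre_of_prefix hτp
  set p := Nat.pair (Encodable.encode ρ) τ.length with hp
  have hpre' : pre orac (p + 1) = place τ ρ := by
    have := pre_tau (r + 1)
    rw [hstep, place_length] at this
    exact this
  have hlp : τ.length ≤ p := le_pair_encode ρ τ
  have hbit : ∀ n, n < p + 1 → orac n = (place τ ρ).getD n false := by
    intro n hn
    have := congrArg (fun l : List Bool => l[n]?) hpre'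
    simp only [pre_getElem?, if_pos hn] at this
    rw [List.getD_eq_getElem?_getD, ← this]
    rfl
  have hp1 : orac p = true := by
    rw [hbit p (Nat.lt_succ_self p)]
    unfold place
    rw [List.getD_append_right _ _ _ _ (by simp; omega)]
    simp [← hp]
    rw [Nat.add_sub_cancel' hlp, Nat.sub_self]
    rfl
  have hrho : rhoOf p = ρ := by rw [rhoOf, hp, Nat.unpair_pair, str_encode]
  have hev : Ev orac p ρ := by
    refine ⟨hp1, hrho, ?_⟩
    rw [hpre', place_count, hlen, hc.1]
    rfl
  refine ⟨p, hev, ?_⟩
  intro p' ρ' hev' hpref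
  rcases lt_trichotomy p' p with hlt | heq | hgt
  · exfalso
    by_cases h1 : p' < τ.length
    · have h2 : evL τ p' := by
        rw [← hpre, evL_pre h1, hev'.2.1]
        exact hev'
      apply hc.2 p' h1 h2
      rw [hev'.2.1]
      rw [List.prefix_iff_eq_take] at hpref
      exact hpref.symm
    · have h2 := hbit p' (by omega)
      rw [hev'.1] at h2
      unfold place at h2
      rw [List.append_assoc, List.getD_append_right _ _ _ _ (by omega),
        List.getD_append _ _ _ _ (by simp; omega)] at h2
      simp at h2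
  · rw [← hev'.2.1, heq, hrho]
  · exfalso
    have h1 : (pre orac (p + 1)).count true + 1 ≤ (pre orac (p' + 1)).count true := by
      rw [pre_succ orac p', List.count_append, hev'.1]
      have : (pre orac (p + 1)).count true ≤ (pre orac p').count true :=
        (pre_mono orac (by omega)).sublist.count_le true
      simp
      omega
    have h2 := idxOf_prefix hpref hev'.idx_lt
    have h3 := hpref.length_le
    have h4 := hev'.2.2
    have h5 := hev.2.2
    omega

/-! ### the measure of the evidence -/

theorem sum_count (A : ℕ → Bool) (n : ℕ) :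
    (∑ p ∈ Finset.range n, if A p = true then (1 / 2 : ℝ≥0∞) ^ ((pre A (p + 1)).count true) else 0) +
      (1 / 2) ^ ((pre A n).count true) = 1 := by
  induction n with
  | zero => simp [pre]
  | succ n ih =>
    refine Eq.trans ?_ ih
    rw [Finset.sum_range_succ, pre_succ, List.count_append]
    cases h : A n
    · simp
    · simp only [if_true, List.count_singleton, beq_self_eq_true]
      rw [add_assoc]
      congr 1
      rw [pow_succ, ← two_mul, mul_comm 2, mul_assoc, one_div,
        ENNReal.inv_mul_cancel (by simp) (by simp), mul_one]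

theorem tsum_count (A : ℕ → Bool) :
    (∑' p, if A p = true then (1 / 2 : ℝ≥0∞) ^ ((pre A (p + 1)).count true) else 0) ≤ 1 := by
  refine ENNReal.tsum_le_of_sum_range_le fun n => ?_
  calc (∑ p ∈ Finset.range n,
        if A p = true then (1 / 2 : ℝ≥0∞) ^ ((pre A (p + 1)).count true) else 0)
      ≤ _ + (1 / 2) ^ ((pre A n).count true) := le_self_add
    _ = 1 := sum_count A n

/-- The union of the evidence against learner number `i`. -/
def evSet (A : ℕ → Bool) (i : ℕ) : Set (ℕ → Bool) :=
  {X | ∃ p ρ, Ev A p ρ ∧ ρ.idxOf true = i ∧ X ∈ cyl ρ}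

theorem lam_evSet (A : ℕ → Bool) (i : ℕ) : lam (evSet A i) ≤ (1 / 2) ^ (i + 5) := by
  classical
  have h1 : evSet A i ⊆ ⋃ p : ℕ, (if Ev A p (rhoOf p) ∧ (rhoOf p).idxOf true = i
      then cyl (rhoOf p) else ∅) := by
    rintro X ⟨p, ρ, h1, h2, h3⟩
    refine Set.mem_iUnion.2 ⟨p, ?_⟩
    have : rhoOf p = ρ := h1.2.1
    rw [this, if_pos ⟨h1, h2⟩]
    exact h3
  refine (measure_mono h1).trans ((measure_iUnion_le _).trans ?_)
  calc ∑' p : ℕ, lam (if Ev A p (rhoOf p) ∧ (rhoOf p).idxOf true = i then cyl (rhoOf p) else ∅)
      ≤ ∑' p : ℕ, (if A p = true then (1 / 2 : ℝ≥0∞) ^ ((pre A (p + 1)).count true) else 0) *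
          (1 / 2) ^ (i + 5) := by
        refine ENNReal.tsum_le_tsum fun p => ?_
        split_ifs with h2 h3 h3
        · rw [lam_cyl, h2.1.2.2, h2.2, ← pow_add, add_assoc]
        · exact absurd h2.1.1 h3
        · rw [measure_empty]; exact zero_le
        · rw [measure_empty]; exact zero_le
    _ = (∑' p : ℕ, (if A p = true then (1 / 2 : ℝ≥0∞) ^ ((pre A (p + 1)).count true) else 0)) *
          (1 / 2) ^ (i + 5) := ENNReal.tsum_mul_right
    _ ≤ 1 * (1 / 2) ^ (i + 5) := by
        gcongr
        exact tsum_count A
    _ = _ := one_mul _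

end Pool.Agent.EXLow
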