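import Pool.Agent.EXLow.Defs

set_option autoImplicit false

namespace Pool.Agent.EXLow

open MeasureTheory Nat.Partrec Filter

theorem pre_length (X : ℕ → Bool) (n : ℕ) : (pre X n).length = n := by simp [pre]

theorem pre_getElem? (X : ℕ → Bool) (n x : ℕ) :
    (pre X n)[x]? = if x < n then some (X x) else none := by
  unfold pre
  rw [List.getElem?_map]
  split_ifs with h
  · rw [List.getElem?_range h]; rfl
  · rw [List.getElem?_eq_none (by simpa using h)]; rfl

theorem pre_add (X : ℕ → Bool) (n m : ℕ) : ∃ ξ, pre X (n + m) = pre X n ++ ξ := by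
  refine ⟨(List.range m).map (fun i => X (n + i)), ?_⟩
  unfold pre
  rw [List.range_add, List.map_append, List.map_map]
  rfl

theorem pre_mono (X : ℕ → Bool) {n m : ℕ} (h : n ≤ m) : pre X n <+: pre X m := by
  obtain ⟨k, rfl⟩ := Nat.exists_eq_add_of_le h
  obtain ⟨ξ, hξ⟩ := pre_add X n k
  rw [hξ]
  exact List.prefix_append _ _

theorem pre_succ (X : ℕ → Bool) (n : ℕ) : pre X (n + 1) = pre X n ++ [X n] := by
  unfold pre
  rw [List.range_succ, List.map_append]
  rfl

theorem take_pre (X : ℕ → Bool) {m n : ℕ} (h : m ≤ n) : (pre X n).take m = pre X m := by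
  have := pre_mono X h
  rw [List.prefix_iff_eq_take] at this
  rw [pre_length] at this
  exact this.symm

/-- Primitive recursion of partial functions. -/
def precR (f h : ℕ →. ℕ) (a n : ℕ) : Part ℕ :=
  Nat.rec (f a) (fun y (IH : Part ℕ) => IH.bind fun i => h (Nat.pair a (Nat.pair y i))) n

theorem mem_precR_succ (f h : ℕ →. ℕ) (a n v : ℕ) :
    v ∈ precR f h a (n + 1) ↔ ∃ i ∈ precR f h a n, v ∈ h (Nat.pair a (Nat.pair n i)) :=
  Part.mem_bind_iff

/-- The use principle. -/
theorem use_principle {A : ℕ → Bool} {f : ℕ →. ℕ} (hf : Nat.RecursiveIn {orc A} f) :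
    ∃ F : List Bool → ℕ →. ℕ, Partrec₂ F ∧
      (∀ σ σ' x v, σ <+: σ' → v ∈ F σ x → v ∈ F σ' x) ∧
      ∀ x v, v ∈ f x ↔ ∃ n, v ∈ F (pre A n) x := by
  induction hf with
  | zero =>
    refine ⟨fun _ _ => Part.some 0, ?_, ?_, ?_⟩
    · exact (Computable.const 0).partrec.to₂
    · intro σ σ' x v _ h; exact h
    · intro x v
      constructor
      · intro h; exact ⟨0, h⟩
      · rintro ⟨n, h⟩; exact h
  | succ =>
    refine ⟨fun _ x => Part.some (Nat.succ x), ?_, ?_, ?_⟩
    · exact (Computable.succ.comp Computable.snd).partrec.to₂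
    · intro σ σ' x v _ h; exact h
    · intro x v
      constructor
      · intro h; exact ⟨0, h⟩
      · rintro ⟨n, h⟩; exact h
  | left =>
    refine ⟨fun _ x => Part.some (Nat.unpair x).1, ?_, ?_, ?_⟩
    · exact (Computable.fst.comp (Computable.unpair.comp Computable.snd)).partrec.to₂
    · intro σ σ' x v _ h; exact h
    · intro x v
      constructor
      · intro h; exact ⟨0, h⟩
      · rintro ⟨n, h⟩; exact h
  | right =>
    refine ⟨fun _ x => Part.some (Nat.unpair x).2, ?_, ?_, ?_⟩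
    · exact (Computable.snd.comp (Computable.unpair.comp Computable.snd)).partrec.to₂
    · intro σ σ' x v _ h; exact h
    · intro x v
      constructor
      · intro h; exact ⟨0, h⟩
      · rintro ⟨n, h⟩; exact h
  | oracle g hg =>
    obtain rfl := hg
    refine ⟨fun σ x => ((σ[x]?).map Bool.toNat : Option ℕ), ?_, ?_, ?_⟩
    · have hb : Primrec Bool.toNat := by
        refine (Primrec.cond Primrec.id (Primrec.const 1) (Primrec.const 0)).of_eq ?_
        intro b; cases b <;> rfl
      have : Computable fun p : List Bool × ℕ => ((p.1[p.2]?).map Bool.toNat : Option ℕ) :=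
        (Primrec.option_map (Primrec.list_getElem?.comp Primrec.fst Primrec.snd)
          (hb.comp Primrec.snd).to₂).to_comp
      exact this.ofOption.to₂
    · intro σ σ' x v h hv
      rw [Part.mem_ofOption] at hv ⊢
      obtain ⟨ξ, rfl⟩ := h
      rw [Option.mem_def, Option.map_eq_some_iff] at hv ⊢
      obtain ⟨b, hb, rfl⟩ := hv
      refine ⟨b, ?_, rfl⟩
      rw [List.getElem?_append_left (by exact (List.getElem?_eq_some_iff.1 hb).1)]
      exact hb
    · intro x v
      simp only [orc, Part.mem_some_iff, Part.mem_ofOption, Option.mem_def, Option.map_eq_some_iff,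
        pre_getElem?]
      constructor
      · rintro rfl
        exact ⟨x + 1, A x, by simp, rfl⟩
      · rintro ⟨n, b, hb, rfl⟩
        split_ifs at hb with h
        cases hb
        rfl
  | @pair f h _ _ ihf ihh =>
    obtain ⟨F, pF, mF, eF⟩ := ihf
    obtain ⟨H, pH, mH, eH⟩ := ihh
    have mem : ∀ (P Q : Part ℕ) (v : ℕ), v ∈ (Nat.pair <$> P <*> Q) ↔
        ∃ a ∈ P, ∃ b ∈ Q, v = Nat.pair a b := by
      intro P Q v
      simp only [Seq.seq, Part.map_eq_map, Part.mem_bind_iff, Part.mem_map_iff]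
      constructor
      · rintro ⟨g, ⟨a, ha, rfl⟩, b, hb, rfl⟩
        exact ⟨a, ha, b, hb, rfl⟩
      · rintro ⟨a, ha, b, hb, rfl⟩
        exact ⟨_, ⟨a, ha, rfl⟩, b, hb, rfl⟩
    refine ⟨fun σ x => Nat.pair <$> F σ x <*> H σ x, ?_, ?_, ?_⟩
    · have h1 : Partrec fun p : List Bool × ℕ => (F p.1 p.2).bind fun a =>
          (H p.1 p.2).map fun b => Nat.pair a b := by
        refine Partrec.bind (f := fun p : List Bool × ℕ => F p.1 p.2)
          (g := fun (p : List Bool × ℕ) (a : ℕ) => (H p.1 p.2).map fun b => Nat.pair a b) pF ?_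
        show Partrec fun q : (List Bool × ℕ) × ℕ => (H q.1.1 q.1.2).map fun b => Nat.pair q.2 b
        refine Partrec.map (f := fun q : (List Bool × ℕ) × ℕ => H q.1.1 q.1.2)
          (g := fun (q : (List Bool × ℕ) × ℕ) (b : ℕ) => Nat.pair q.2 b)
          (pH.comp (Computable.fst.comp Computable.fst)
          (Computable.snd.comp Computable.fst)) ?_
        exact (Primrec₂.natPair.to_comp.comp (Computable.snd.comp Computable.fst)
          Computable.snd).to₂
      show Partrec fun p : List Bool × ℕ => Nat.pair <$> F p.1 p.2 <*> H p.1 p.2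
      refine h1.of_eq ?_
      rintro ⟨σ, x⟩
      apply Part.ext
      intro v
      rw [mem]
      simp only [Part.mem_bind_iff, Part.mem_map_iff]
      constructor
      · rintro ⟨a, ha, b, hb, rfl⟩; exact ⟨a, ha, b, hb, rfl⟩
      · rintro ⟨a, ha, b, hb, rfl⟩; exact ⟨a, ha, b, hb, rfl⟩
    · intro σ σ' x v h hv
      rw [mem] at hv ⊢
      obtain ⟨a, ha, b, hb, rfl⟩ := hv
      exact ⟨a, mF _ _ _ _ h ha, b, mH _ _ _ _ h hb, rfl⟩
    · intro x v
      rw [mem]
      simp only [mem]
      constructor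
      · rintro ⟨a, ha, b, hb, rfl⟩
        obtain ⟨n, hn⟩ := (eF _ _).1 ha
        obtain ⟨m, hm⟩ := (eH _ _).1 hb
        exact ⟨max n m, a, mF _ _ _ _ (pre_mono A (le_max_left _ _)) hn, b,
          mH _ _ _ _ (pre_mono A (le_max_right _ _)) hm, rfl⟩
      · rintro ⟨n, a, ha, b, hb, rfl⟩
        exact ⟨a, (eF _ _).2 ⟨n, ha⟩, b, (eH _ _).2 ⟨n, hb⟩, rfl⟩
  | @comp f h _ _ ihf ihh =>
    obtain ⟨F, pF, mF, eF⟩ := ihf
    obtain ⟨H, pH, mH, eH⟩ := ihh
    refine ⟨fun σ x => (H σ x).bind (F σ), ?_, ?_, ?_⟩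
    · show Partrec fun p : List Bool × ℕ => (H p.1 p.2).bind (F p.1)
      refine Partrec.bind (f := fun p : List Bool × ℕ => H p.1 p.2)
        (g := fun (p : List Bool × ℕ) (a : ℕ) => F p.1 a) pH ?_
      exact (pF.comp (Computable.fst.comp Computable.fst) Computable.snd).to₂
    · intro σ σ' x v h hv
      simp only [Part.mem_bind_iff] at hv ⊢
      obtain ⟨a, ha, hv⟩ := hv
      exact ⟨a, mH _ _ _ _ h ha, mF _ _ _ _ h hv⟩
    · intro x v
      simp only [Part.bind_eq_bind, Part.mem_bind_iff]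
      constructor
      · rintro ⟨a, ha, hv⟩
        obtain ⟨n, hn⟩ := (eH _ _).1 ha
        obtain ⟨m, hm⟩ := (eF _ _).1 hv
        exact ⟨max n m, a, mH _ _ _ _ (pre_mono A (le_max_left _ _)) hn,
          mF _ _ _ _ (pre_mono A (le_max_right _ _)) hm⟩
      · rintro ⟨n, a, ha, hv⟩
        exact ⟨a, (eH _ _).2 ⟨n, ha⟩, (eF _ _).2 ⟨n, hv⟩⟩
  | @prec f h _ _ ihf ihh =>
    obtain ⟨F, pF, mF, eF⟩ := ihf
    obtain ⟨H, pH, mH, eH⟩ := ihh
    have mono : ∀ σ σ', σ <+: σ' → ∀ a n v,
        v ∈ precR (F σ) (H σ) a n → v ∈ precR (F σ') (H σ') a n := by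
      intro σ σ' hσ a n
      induction n with
      | zero => intro v hv; exact mF _ _ _ _ hσ hv
      | succ n ih =>
        intro v hv
        rw [mem_precR_succ] at hv ⊢
        obtain ⟨i, hi, hv⟩ := hv
        exact ⟨i, ih i hi, mH _ _ _ _ hσ hv⟩
    refine ⟨fun σ p => precR (F σ) (H σ) p.unpair.1 p.unpair.2, ?_, ?_, ?_⟩
    · show Partrec fun p : List Bool × ℕ => precR (F p.1) (H p.1) p.2.unpair.1 p.2.unpair.2
      refine Partrec.nat_rec (f := fun p : List Bool × ℕ => p.2.unpair.2)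
        (g := fun p : List Bool × ℕ => F p.1 p.2.unpair.1)
        (h := fun (p : List Bool × ℕ) (q : ℕ × ℕ) =>
          H p.1 (Nat.pair p.2.unpair.1 (Nat.pair q.1 q.2))) ?_ ?_ ?_
      · exact Computable.snd.comp (Computable.unpair.comp Computable.snd)
      · exact pF.comp Computable.fst
          (Computable.fst.comp (Computable.unpair.comp Computable.snd))
      · show Partrec fun r : (List Bool × ℕ) × (ℕ × ℕ) =>
          H r.1.1 (Nat.pair r.1.2.unpair.1 (Nat.pair r.2.1 r.2.2))
        refine pH.comp (Computable.fst.comp Computable.fst) ?_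
        refine Primrec₂.natPair.to_comp.comp
          (Computable.fst.comp (Computable.unpair.comp (Computable.snd.comp Computable.fst))) ?_
        exact Primrec₂.natPair.to_comp.comp (Computable.fst.comp Computable.snd)
          (Computable.snd.comp Computable.snd)
    · intro σ σ' x v hσ hv
      exact mono σ σ' hσ _ _ _ hv
    · intro x v
      show v ∈ precR f h x.unpair.1 x.unpair.2 ↔
        ∃ k, v ∈ precR (F (pre A k)) (H (pre A k)) x.unpair.1 x.unpair.2
      generalize x.unpair.1 = a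
      generalize x.unpair.2 = n
      induction n generalizing v with
      | zero => exact eF a v
      | succ n ih =>
        rw [mem_precR_succ]
        constructor
        · rintro ⟨i, hi, hv⟩
          obtain ⟨k, hk⟩ := (ih i).1 hi
          obtain ⟨m, hm⟩ := (eH _ _).1 hv
          refine ⟨max k m, ?_⟩
          rw [mem_precR_succ]
          exact ⟨i, mono _ _ (pre_mono A (le_max_left _ _)) _ _ _ hk,
            mH _ _ _ _ (pre_mono A (le_max_right _ _)) hm⟩
        · rintro ⟨k, hk⟩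
          rw [mem_precR_succ] at hk
          obtain ⟨i, hi, hv⟩ := hk
          exact ⟨i, (ih i).2 ⟨k, hi⟩, (eH _ _).2 ⟨k, hv⟩⟩
  | @rfind f _ ihf =>
    obtain ⟨F, pF, mF, eF⟩ := ihf
    have mem : ∀ (G : ℕ → Part ℕ) (a n : ℕ),
        n ∈ (Nat.rfind fun n => (fun m => decide (m = 0)) <$> G (Nat.pair a n)) ↔
        0 ∈ G (Nat.pair a n) ∧ ∀ m < n, ∃ v ∈ G (Nat.pair a m), v ≠ 0 := by
      intro G a n
      rw [Nat.mem_rfind]
      simp only [Part.map_eq_map, Part.mem_map_iff, decide_eq_true_eq, decide_eq_false_iff_not]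
      constructor
      · rintro ⟨⟨x, hx, rfl⟩, h2⟩
        exact ⟨hx, fun m hm => by
          obtain ⟨v, hv, h⟩ := h2 hm
          exact ⟨v, hv, h⟩⟩
      · rintro ⟨h1, h2⟩
        exact ⟨⟨0, h1, rfl⟩, fun {m} hm => by
          obtain ⟨v, hv, h⟩ := h2 m hm
          exact ⟨v, hv, h⟩⟩
    refine ⟨fun σ a => Nat.rfind fun n => (fun m => decide (m = 0)) <$> F σ (Nat.pair a n), ?_, ?_, ?_⟩
    · show Partrec fun p : List Bool × ℕ =>
        Nat.rfind fun n => (fun m => decide (m = 0)) <$> F p.1 (Nat.pair p.2 n)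
      refine Partrec.rfind (p := fun (p : List Bool × ℕ) (n : ℕ) =>
        (fun m => decide (m = 0)) <$> F p.1 (Nat.pair p.2 n)) ?_
      show Partrec fun a : (List Bool × ℕ) × ℕ =>
        (F a.1.1 (Nat.pair a.1.2 a.2)).map fun m => decide (m = 0)
      refine Partrec.map (f := fun a : (List Bool × ℕ) × ℕ => F a.1.1 (Nat.pair a.1.2 a.2))
        (g := fun _ (m : ℕ) => decide (m = 0)) ?_ ?_
      · refine pF.comp (Computable.fst.comp Computable.fst) ?_
        exact Primrec₂.natPair.to_comp.comp (Computable.snd.comp Computable.fst) Computable.snd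
      · exact ((Primrec.eq.comp Primrec.snd (Primrec.const 0)).decide.to_comp).to₂
    · intro σ σ' a v hσ hv
      rw [mem (F σ)] at hv
      rw [mem (F σ')]
      refine ⟨mF _ _ _ _ hσ hv.1, fun m hm => ?_⟩
      obtain ⟨w, hw, h0⟩ := hv.2 m hm
      exact ⟨w, mF _ _ _ _ hσ hw, h0⟩
    · intro a n
      rw [mem f]
      constructor
      · rintro ⟨h1, h2⟩
        obtain ⟨k, hk⟩ := (eF _ _).1 h1
        have : ∃ K, ∀ m < n, ∃ v ∈ F (pre A K) (Nat.pair a m), v ≠ 0 := by
          clear h1 hk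
          induction n with
          | zero => exact ⟨0, fun m hm => absurd hm (Nat.not_lt_zero m)⟩
          | succ n ih =>
            obtain ⟨K, hK⟩ := ih (fun m hm => h2 m (Nat.lt_succ_of_lt hm))
            obtain ⟨v, hv, h0⟩ := h2 n (Nat.lt_succ_self n)
            obtain ⟨K', hK'⟩ := (eF _ _).1 hv
            refine ⟨max K K', fun m hm => ?_⟩
            rcases Nat.lt_succ_iff_lt_or_eq.1 hm with hm | rfl
            · obtain ⟨w, hw, hw0⟩ := hK m hm
              exact ⟨w, mF _ _ _ _ (pre_mono A (le_max_left _ _)) hw, hw0⟩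
            · exact ⟨v, mF _ _ _ _ (pre_mono A (le_max_right _ _)) hK', h0⟩
        obtain ⟨K, hK⟩ := this
        refine ⟨max k K, ?_⟩
        rw [mem (F _)]
        refine ⟨mF _ _ _ _ (pre_mono A (le_max_left _ _)) hk, fun m hm => ?_⟩
        obtain ⟨w, hw, hw0⟩ := hK m hm
        exact ⟨w, mF _ _ _ _ (pre_mono A (le_max_right _ _)) hw, hw0⟩
      · rintro ⟨k, hk⟩
        rw [mem (F _)] at hk
        refine ⟨(eF _ _).2 ⟨k, hk.1⟩, fun m hm => ?_⟩
        obtain ⟨w, hw, hw0⟩ := hk.2 m hm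
        exact ⟨w, (eF _ _).2 ⟨k, hw⟩, hw0⟩

end Pool.Agent.EXLow
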